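import Mathlib

set_option autoImplicit false

open Complex MeasureTheory Set Filter Asymptotics
open scoped Topology

namespace Pool.Agent.MP_047497_nt

/-- `IsBarnesZeta r a w Z`: the function `Z` is the meromorphic continuation to `ℂ` of the Barnes
multiple zeta-function `ζ_r(s; a, w) = ∑_{m ∈ ℕ^r} (a + m·w)^{-s}` (`Re s > r`): it agrees with the
absolutely convergent series for `Re s > r`, is holomorphic at every point other than
`s = 1, …, r`, and has at most a simple pole at each of `s = 1, …, r`. -/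
structure IsBarnesZeta (r : ℕ) (a : ℝ) (w : Fin r → ℝ) (Z : ℂ → ℂ) : Prop where
  eq_series : ∀ s : ℂ, (r : ℝ) < s.re →
    HasSum (fun m : Fin r → ℕ => ((a + ∑ i, (m i : ℝ) * w i : ℝ) : ℂ) ^ (-s)) (Z s)
  differentiableAt : ∀ s : ℂ, (∀ j : ℕ, 1 ≤ j → j ≤ r → s ≠ j) → DifferentiableAt ℂ Z s
  simple_pole : ∀ j : ℕ, 1 ≤ j → j ≤ r →
    ∃ g : ℂ → ℂ, AnalyticAt ℂ g j ∧ ∀ᶠ s in 𝓝[≠] (j : ℂ), Z s = g s / (s - j)

/-- The generating function `∑_m e^{-(a+m·w) z} = e^{-a z} ∏ (1 - e^{-w_i z})⁻¹`, `Re z > 0`. -/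
noncomputable def genF (r : ℕ) (a : ℝ) (w : Fin r → ℝ) (z : ℂ) : ℂ :=
  Complex.exp (-(a * z)) * ∏ i, (1 - Complex.exp (-(w i * z)))⁻¹

/-- `genF` minus its leading polar term `1 / (w_1 ⋯ w_r z^r)` at `0`. -/
noncomputable def subF (r : ℕ) (a : ℝ) (w : Fin r → ℝ) (z : ℂ) : ℂ :=
  genF r a w z - ((∏ i, (w i : ℂ)) * z ^ r)⁻¹

end Pool.Agent.MP_047497_nt
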