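import Pool.Agent.Lib_MP_047497_nt.Defs
open Complex MeasureTheory Set Filter Asymptotics
open scoped Topology
namespace Pool.Agent.MP_047497_nt

theorem prod_step {β : Type*} {f0 : ℕ → ℂ} (h0 : Summable fun n => ‖f0 n‖) {g : β → ℂ}
    (h1 : Summable fun m => ‖g m‖) :
    Summable (fun x : ℕ × β => ‖f0 x.1 * g x.2‖) := Summable.mul_norm h0 h1

theorem prod_step' {β : Type*} {f0 : ℕ → ℂ} (h0 : Summable fun n => ‖f0 n‖) {g : β → ℂ}
    (h1 : Summable fun m => ‖g m‖) {a b : ℂ} (ha : HasSum f0 a) (hb : HasSum g b) :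
    HasSum (fun x : ℕ × β => f0 x.1 * g x.2) (a * b) := ha.mul hb (prod_step h0 h1).of_norm

theorem hasSum_pi_prod {r : ℕ} (f : Fin r → ℕ → ℂ) (hf : ∀ i, Summable fun n => ‖f i n‖) :
    Summable (fun m : Fin r → ℕ => ‖∏ i, f i (m i)‖) ∧
      HasSum (fun m : Fin r → ℕ => ∏ i, f i (m i)) (∏ i, ∑' n, f i n) := by
  induction r with
  | zero =>
    constructor
    · exact Summable.of_finite
    · simp
  | succ r ih =>
    obtain ⟨h1, h2⟩ := ih (fun i => f i.succ) (fun i => hf i.succ)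
    have h0 := hf 0
    have hnorm := prod_step h0 h1
    have hs := prod_step' h0 h1 h0.of_norm.hasSum h2
    have key : ∀ x : ℕ × (Fin r → ℕ), f 0 x.1 * ∏ i, f i.succ (x.2 i) =
        ∏ i, f i ((Fin.consEquiv (fun _ : Fin (r+1) => ℕ)) x i) := by
      intro x
      rw [Fin.prod_univ_succ]
      simp [Fin.consEquiv]
    constructor
    · rw [← (Fin.consEquiv (fun _ : Fin (r+1) => ℕ)).summable_iff]
      refine hnorm.congr fun x => ?_
      rw [key x]; rfl
    · rw [← (Fin.consEquiv (fun _ : Fin (r+1) => ℕ)).hasSum_iff, Fin.prod_univ_succ]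
      refine hs.congr_fun fun x => ?_
      rw [key x]; rfl

/-- the exponents `λ_m = a + m·w`. -/
noncomputable def lam {r : ℕ} (a : ℝ) (w : Fin r → ℝ) (m : Fin r → ℕ) : ℝ :=
  a + ∑ i, (m i : ℝ) * w i

theorem lam_pos {r : ℕ} {a : ℝ} (ha : 0 < a) {w : Fin r → ℝ} (hw : ∀ i, 0 < w i)
    (m : Fin r → ℕ) : 0 < lam a w m := by
  unfold lam
  have : 0 ≤ ∑ i, (m i : ℝ) * w i :=
    Finset.sum_nonneg fun i _ => mul_nonneg (Nat.cast_nonneg _) (hw i).le
  linarith

theorem hasSum_exp {r : ℕ} {a : ℝ} {w : Fin r → ℝ} (hw : ∀ i, 0 < w i)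
    {x : ℝ} (hx : 0 < x) :
    HasSum (fun m : Fin r → ℕ => (1 : ℂ) * (Real.exp (-lam a w m * x) : ℂ)) (genF r a w x) := by
  have h1 : ∀ i, Summable fun n : ℕ => ‖(Complex.exp (-(w i * x)) : ℂ) ^ n‖ := by
    intro i
    have : ‖(Complex.exp (-(w i * x)) : ℂ)‖ < 1 := by
      rw [Complex.norm_exp]
      simp only [neg_re, mul_re, ofReal_re, ofReal_im, mul_zero, sub_zero]
      rw [Real.exp_lt_one_iff]
      have := mul_pos (hw i) hx
      linarith
    simp_rw [norm_pow]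
    exact summable_geometric_of_lt_one (norm_nonneg _) this
  obtain ⟨_, h2⟩ := hasSum_pi_prod (fun i n => (Complex.exp (-(w i * x)) : ℂ) ^ n) h1
  have h3 : ∀ i, ∑' n : ℕ, (Complex.exp (-(w i * x)) : ℂ) ^ n =
      (1 - Complex.exp (-(w i * x)))⁻¹ := by
    intro i
    apply tsum_geometric_of_norm_lt_one
    rw [Complex.norm_exp]
    simp only [neg_re, mul_re, ofReal_re, ofReal_im, mul_zero, sub_zero]
    rw [Real.exp_lt_one_iff]
    have := mul_pos (hw i) hx
    linarith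
  simp_rw [h3] at h2
  have h4 := h2.mul_left (Complex.exp (-(a * x)))
  refine h4.congr_fun fun m => ?_
  rw [one_mul]
  push_cast [lam]
  simp_rw [← Complex.exp_nat_mul]
  rw [← Complex.exp_sum, ← Complex.exp_add]
  congr 1
  rw [neg_mul, add_mul, Finset.sum_mul, neg_add, ← Finset.sum_neg_distrib]
  congr 1
  apply Finset.sum_congr rfl
  intro i _
  ring

theorem summable_lam {r : ℕ} {a : ℝ} (ha : 0 < a) {w : Fin r → ℝ} (hw : ∀ i, 0 < w i)
    {σ : ℝ} (hσ : (r : ℝ) < σ) :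
    Summable fun m : Fin r → ℕ => ‖(1 : ℂ)‖ / (lam a w m) ^ σ := by
  rcases Nat.eq_zero_or_pos r with rfl | hr
  · exact Summable.of_finite
  have hr' : (0 : ℝ) < r := by exact_mod_cast hr
  obtain ⟨c, hc, hc1⟩ : ∃ c : ℝ, 0 < c ∧ ∀ (m : Fin r → ℕ) (i : Fin r),
      c * ((m i : ℝ) + 1) ≤ lam a w m := by
    have hne : (Finset.univ : Finset (Fin r)).Nonempty := ⟨⟨0, hr⟩, Finset.mem_univ _⟩
    obtain ⟨i0, _, hi0⟩ := Finset.exists_min_image Finset.univ w hne
    refine ⟨min a (w i0), lt_min ha (hw i0), fun m i => ?_⟩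
    have h1 : (m i : ℝ) * w i ≤ ∑ j, (m j : ℝ) * w j :=
      Finset.single_le_sum (f := fun j => (m j : ℝ) * w j)
        (fun j _ => mul_nonneg (Nat.cast_nonneg _) (hw j).le) (Finset.mem_univ i)
    have h2 : min a (w i0) * (m i : ℝ) ≤ (m i : ℝ) * w i := by
      rw [mul_comm]
      apply mul_le_mul_of_nonneg_left _ (Nat.cast_nonneg _)
      exact (min_le_right _ _).trans (hi0 i (Finset.mem_univ i))
    have h3 : min a (w i0) ≤ a := min_le_left _ _
    unfold lam
    rw [mul_add, mul_one]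
    linarith
  have hs : ∀ i : Fin r, Summable fun n : ℕ => ‖(((((n : ℝ) + 1) ^ (-(σ / r)) : ℝ)) : ℂ)‖ := by
    intro i
    have h1 : Summable fun n : ℕ => (((n : ℕ) : ℝ)) ^ (-(σ / r)) := by
      apply Real.summable_nat_rpow.2
      rw [neg_lt_neg_iff, lt_div_iff₀ hr']
      linarith
    have h2 := (summable_nat_add_iff 1).2 h1
    refine h2.congr fun n => ?_
    rw [Complex.norm_real, Real.norm_eq_abs, abs_of_nonneg (by positivity)]
    push_cast
    rfl
  obtain ⟨h1, _⟩ := hasSum_pi_prod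
    (fun (_ : Fin r) n => (((((n : ℝ) + 1) ^ (-(σ / r)) : ℝ)) : ℂ)) hs
  refine Summable.of_nonneg_of_le (fun m => ?_) (fun m => ?_) (h1.mul_left (c ^ (-σ)))
  · have := lam_pos ha hw m
    positivity
  · have hpos := lam_pos ha hw m
    rw [norm_one, one_div, ← Real.rpow_neg hpos.le, norm_prod]
    simp only [Complex.norm_real]
    have h5 : ∏ i : Fin r, ‖((m i : ℝ) + 1) ^ (-(σ / r))‖ =
        (∏ i : Fin r, ((m i : ℝ) + 1)) ^ (-(σ / r)) := by
      rw [← Real.finsetProd_rpow _ _ (fun i _ => by positivity)]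
      apply Finset.prod_congr rfl
      intro i _
      rw [Real.norm_eq_abs, abs_of_nonneg (by positivity)]
    rw [h5]
    have h6 : c ^ r * ∏ i : Fin r, ((m i : ℝ) + 1) ≤ (lam a w m) ^ r := by
      have : c ^ r * ∏ i : Fin r, ((m i : ℝ) + 1) = ∏ i : Fin r, (c * ((m i : ℝ) + 1)) := by
        rw [Finset.prod_mul_distrib]; simp
      rw [this]
      calc ∏ i : Fin r, (c * ((m i : ℝ) + 1)) ≤ ∏ i : Fin r, lam a w m :=
            Finset.prod_le_prod (fun i _ => by positivity) (fun i _ => hc1 m i)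
        _ = _ := by simp
    have hPpos : 0 < ∏ i : Fin r, ((m i : ℝ) + 1) := Finset.prod_pos fun i _ => by positivity
    have h7 : ((lam a w m) ^ r) ^ (-(σ / r)) ≤
        (c ^ r * ∏ i : Fin r, ((m i : ℝ) + 1)) ^ (-(σ / r)) := by
      apply Real.rpow_le_rpow_of_nonpos (by positivity) h6
      have : 0 < σ / r := div_pos (by linarith) hr'
      linarith
    rw [Real.mul_rpow (by positivity) hPpos.le] at h7
    have h8 : ∀ y : ℝ, 0 < y → (y ^ r) ^ (-(σ / r)) = y ^ (-σ) := by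
      intro y hy
      rw [← Real.rpow_natCast, ← Real.rpow_mul hy.le]
      congr 1
      field_simp
    rw [h8 _ hpos, h8 _ hc] at h7
    exact h7

theorem hasSum_series {r : ℕ} {a : ℝ} (ha : 0 < a) {w : Fin r → ℝ} (hw : ∀ i, 0 < w i)
    {s : ℂ} (hs : (r : ℝ) < s.re) :
    HasSum (fun m : Fin r → ℕ => Complex.Gamma s * ((a + ∑ i, (m i : ℝ) * w i : ℝ) : ℂ) ^ (-s))
      (mellin (fun x : ℝ => genF r a w x) s) := by
  have h0 : (0 : ℝ) ≤ r := Nat.cast_nonneg r
  have := hasSum_mellin (ι := Fin r → ℕ) (a := fun _ => (1 : ℂ)) (p := lam a w)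
    (F := fun x : ℝ => genF r a w x) (s := s) (fun m => Or.inr (lam_pos ha hw m))
    (by linarith) (fun t ht => hasSum_exp hw ht) (summable_lam ha hw hs)
  refine this.congr_fun fun m => ?_
  rw [cpow_neg]
  simp only [lam]
  ring

end Pool.Agent.MP_047497_nt
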