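import Pool.Agent.Lib_MP_047497_nt.PartA1
open Complex MeasureTheory Set Filter Asymptotics
open scoped Topology
namespace Pool.Agent.MP_047497_nt

/-- the entire function `(1 - e^{-u})/u`. -/
noncomputable def phi : ℂ → ℂ := dslope (fun u => -Complex.exp (-u)) 0

theorem phi_differentiable : Differentiable ℂ phi := by
  rw [← differentiableOn_univ]
  unfold phi
  rw [Complex.differentiableOn_dslope (by simp)]
  fun_prop

theorem phi_mul (u : ℂ) : u * phi u = 1 - Complex.exp (-u) := by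
  have := sub_smul_dslope (fun u : ℂ => -Complex.exp (-u)) 0 u
  simp only [sub_zero, smul_eq_mul, neg_zero, Complex.exp_zero] at this
  unfold phi
  rw [this]; ring

theorem phi_zero : phi 0 = 1 := by
  unfold phi
  rw [dslope_same]
  have : HasDerivAt (fun u : ℂ => -Complex.exp (-u)) (-(Complex.exp (-0) * (-1))) 0 :=
    ((hasDerivAt_neg (0:ℂ)).cexp).neg
  rw [this.deriv]; simp

/-- `z^r` times the generating function, analytic at `0`. -/
noncomputable def G (r : ℕ) (a : ℝ) (w : Fin r → ℝ) (z : ℂ) : ℂ :=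
  Complex.exp (-(a * z)) * ∏ i, (w i * phi (w i * z))⁻¹

theorem genF_eq {r : ℕ} {a : ℝ} {w : Fin r → ℝ} {z : ℂ} (hz : z ≠ 0) :
    genF r a w z = (z ^ r)⁻¹ * G r a w z := by
  unfold genF G
  have : ∀ i : Fin r, (1 - Complex.exp (-(w i * z)))⁻¹ = z⁻¹ * (w i * phi (w i * z))⁻¹ := by
    intro i
    rw [← phi_mul, ← mul_inv]
    congr 1; ring
  simp_rw [this]
  rw [Finset.prod_mul_distrib]
  simp
  ring

theorem G_analyticAt (r : ℕ) (a : ℝ) {w : Fin r → ℝ} (hw : ∀ i, 0 < w i) :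
    AnalyticAt ℂ (G r a w) 0 := by
  have hphi : AnalyticOnNhd ℂ phi univ := analyticOnNhd_univ_iff_differentiable.mpr phi_differentiable
  unfold G
  refine AnalyticAt.mul (by fun_prop) ?_
  refine Finset.analyticAt_fun_prod _ fun i _ => ?_
  refine AnalyticAt.inv (AnalyticAt.mul analyticAt_const ?_) ?_
  · exact AnalyticAt.fun_comp (hphi _ (mem_univ _)) (by fun_prop)
  · simp only [mul_zero, phi_zero, mul_one]
    exact_mod_cast (hw i).ne'

theorem G_zero (r : ℕ) (a : ℝ) (w : Fin r → ℝ) : G r a w 0 = (∏ i, (w i : ℂ))⁻¹ := by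
  unfold G
  simp [phi_zero]

theorem exists_coeff (r : ℕ) (a : ℝ) {w : Fin r → ℝ} (hw : ∀ i, 0 < w i) :
    ∃ c : ℕ → ℂ, c 0 = (∏ i, (w i : ℂ))⁻¹ ∧
      ∀ N : ℕ, (fun z : ℂ => G r a w z - ∑ j ∈ Finset.range N, c j * z ^ j) =O[𝓝 0]
        fun z => ‖z‖ ^ N := by
  obtain ⟨p, hp⟩ := G_analyticAt r a hw
  refine ⟨fun j => p.coeff j, ?_, fun N => ?_⟩
  · have h := hp.coeff_zero (fun _ => 1)
    rw [← G_zero r a w, ← h]
    rfl
  · have := hp.isBigO_sub_partialSum_pow N
    simp only [zero_add] at this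
    refine this.congr_left fun z => ?_
    congr 1
    unfold FormalMultilinearSeries.partialSum
    apply Finset.sum_congr rfl
    intro j _
    rw [FormalMultilinearSeries.apply_eq_pow_smul_coeff, smul_eq_mul, mul_comm]

theorem genF_continuousOn (r : ℕ) (a : ℝ) {w : Fin r → ℝ} (hw : ∀ i, 0 < w i) :
    ContinuousOn (fun x : ℝ => genF r a w x) (Ioi 0) := by
  unfold genF
  refine ContinuousOn.mul (by fun_prop) ?_
  refine continuousOn_finsetProd _ fun i _ => ?_
  refine ContinuousOn.inv₀ (by fun_prop) ?_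
  intro x hx h
  have hx' : 0 < x := hx
  have h1 : Complex.exp (-(w i * x)) = 1 := (sub_eq_zero.1 h).symm
  have h2 : ‖Complex.exp (-(w i * x))‖ = 1 := by rw [h1]; simp
  rw [Complex.norm_exp] at h2
  simp only [neg_re, mul_re, ofReal_re, ofReal_im, mul_zero, sub_zero, Real.exp_eq_one_iff] at h2
  have := mul_pos (hw i) hx'
  linarith

theorem genF_top (r : ℕ) (a : ℝ) {w : Fin r → ℝ} (hw : ∀ i, 0 < w i) :
    (fun x : ℝ => genF r a w x) =O[atTop] fun x : ℝ => Real.exp (-a * x) := by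
  refine IsBigO.of_bound (∏ i, (1 - Real.exp (-(w i)))⁻¹) ?_
  filter_upwards [eventually_ge_atTop 1] with x hx
  unfold genF
  rw [norm_mul, Complex.norm_exp, norm_prod, mul_comm, Real.norm_eq_abs, Real.abs_exp]
  have h1 : (-((a : ℂ) * x)).re = -a * x := by simp
  rw [h1]
  refine mul_le_mul_of_nonneg_right ?_ (Real.exp_pos _).le
  refine Finset.prod_le_prod (fun i _ => norm_nonneg _) fun i _ => ?_
  rw [norm_inv]
  have h2 : Real.exp (-(w i)) < 1 := by
    rw [Real.exp_lt_one_iff]; linarith [hw i]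
  refine inv_anti₀ (by linarith) ?_
  have h3 : ‖Complex.exp (-(w i * x))‖ ≤ Real.exp (-(w i)) := by
    rw [Complex.norm_exp]
    simp only [neg_re, mul_re, ofReal_re, ofReal_im, mul_zero, sub_zero]
    apply Real.exp_le_exp.2
    nlinarith [hw i]
  have h4 := norm_sub_norm_le (1 : ℂ) (Complex.exp (-(w i * x)))
  rw [norm_one] at h4
  linarith

/-- the cut-off power `x^{j-r} 1_{(0,1]}(x)` -/
noncomputable def cutPow (r j : ℕ) : ℝ → ℂ :=
  indicator (Ioc 0 1) (fun t : ℝ => (t : ℂ) ^ ((j : ℂ) - r))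

/-- the generating function minus the first `N` (cut off) polar/Taylor terms. -/
noncomputable def hN (r : ℕ) (a : ℝ) (w : Fin r → ℝ) (c : ℕ → ℂ) (N : ℕ) (x : ℝ) : ℂ :=
  genF r a w x - ∑ j ∈ Finset.range N, c j * cutPow r j x

theorem cutPow_locInt (r j : ℕ) : LocallyIntegrableOn (cutPow r j) (Ioi 0) := by
  have h1 : ContinuousOn (fun t : ℝ => (t : ℂ) ^ ((j : ℂ) - r)) (Ioi 0) := by
    intro t ht
    exact (continuousAt_ofReal_cpow_const _ _ (Or.inr <| ne_of_gt ht)).continuousWithinAt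
  have h2 := h1.locallyIntegrableOn (μ := volume) measurableSet_Ioi
  intro x hx
  obtain ⟨s, hs, hs'⟩ := h2 x hx
  exact ⟨s, hs, hs'.indicator measurableSet_Ioc⟩

theorem hN_locInt (r : ℕ) (a : ℝ) {w : Fin r → ℝ} (hw : ∀ i, 0 < w i) (c : ℕ → ℂ) (N : ℕ) :
    LocallyIntegrableOn (hN r a w c N) (Ioi 0) := by
  induction N with
  | zero =>
    unfold hN
    simp only [Finset.range_zero, Finset.sum_empty, sub_zero]
    exact (genF_continuousOn r a hw).locallyIntegrableOn measurableSet_Ioi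
  | succ N ih =>
    have h1 : hN r a w c (N+1) = fun x => hN r a w c N x - c N * cutPow r N x := by
      funext x
      unfold hN
      rw [Finset.sum_range_succ]; ring
    rw [h1]
    have h2 : LocallyIntegrableOn (fun x => c N * cutPow r N x) (Ioi 0) := by
      intro x hx
      obtain ⟨s, hs, hs'⟩ := cutPow_locInt r N x hx
      exact ⟨s, hs, hs'.const_mul _⟩
    exact ih.sub h2

theorem hN_top (r : ℕ) (a : ℝ) {w : Fin r → ℝ} (hw : ∀ i, 0 < w i) (c : ℕ → ℂ)
    (N : ℕ) : (hN r a w c N) =O[atTop] fun x : ℝ => Real.exp (-a * x) := by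
  refine (genF_top r a hw).congr' ?_ EventuallyEq.rfl
  filter_upwards [eventually_gt_atTop 1] with x hx
  unfold hN cutPow
  have : ∀ j, indicator (Ioc (0:ℝ) 1) (fun t : ℝ => (t : ℂ) ^ ((j : ℂ) - r)) x = 0 := by
    intro j
    rw [indicator_of_notMem]
    intro h
    exact absurd h.2 (by linarith)
  simp [this]

theorem hN_bot (r : ℕ) (a : ℝ) {w : Fin r → ℝ} {c : ℕ → ℂ}
    {N : ℕ} (hc : (fun z : ℂ => G r a w z - ∑ j ∈ Finset.range N, c j * z ^ j) =O[𝓝 0]
        fun z => ‖z‖ ^ N) :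
    (hN r a w c N) =O[𝓝[>] 0] fun x : ℝ => x ^ (-((r : ℝ) - N)) := by
  have h1 : Tendsto (fun x : ℝ => (x : ℂ)) (𝓝[>] 0) (𝓝 0) := by
    have : Tendsto (fun x : ℝ => (x : ℂ)) (𝓝 0) (𝓝 0) := by
      have := Complex.continuous_ofReal.tendsto 0
      simpa using this
    exact this.mono_left nhdsWithin_le_nhds
  have h2 := hc.comp_tendsto h1
  have h3 : (fun x : ℝ => ((x : ℂ) ^ r)⁻¹ * (G r a w x - ∑ j ∈ Finset.range N, c j * (x : ℂ) ^ j))
      =O[𝓝[>] 0] fun x : ℝ => ((x : ℂ) ^ r)⁻¹ * ((‖(x : ℂ)‖ ^ N : ℝ) : ℂ) := by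
    refine (isBigO_refl _ _).mul ?_
    refine IsBigO.trans h2 ?_
    refine IsBigO.of_bound 1 (Eventually.of_forall fun x => ?_)
    simp
  refine (h3.congr' ?_ EventuallyEq.rfl).trans ?_
  · have hIoc : Ioc (0 : ℝ) 1 ∈ 𝓝[>] (0 : ℝ) := Ioc_mem_nhdsGT one_pos
    filter_upwards [hIoc] with x hx
    have hx0 : (x : ℂ) ≠ 0 := by exact_mod_cast hx.1.ne'
    unfold hN
    rw [genF_eq hx0, mul_sub, Finset.mul_sum]
    congr 1
    apply Finset.sum_congr rfl
    intro j _
    unfold cutPow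
    rw [indicator_of_mem hx, cpow_sub _ _ hx0, cpow_natCast, cpow_natCast]
    field_simp
  · refine IsBigO.of_bound 1 ?_
    filter_upwards [self_mem_nhdsWithin] with x hx
    have hx' : 0 < x := hx
    rw [one_mul, norm_mul, norm_inv, norm_pow, Complex.norm_real, Complex.norm_real,
      Real.norm_eq_abs, Real.norm_eq_abs, abs_of_pos hx', abs_of_nonneg (by positivity),
      Real.norm_eq_abs, abs_of_nonneg (by positivity), neg_sub, Real.rpow_sub hx',
      Real.rpow_natCast, Real.rpow_natCast]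
    rw [div_eq_inv_mul]

theorem mellin_hN_differentiableAt (r : ℕ) {a : ℝ} (ha : 0 < a) {w : Fin r → ℝ}
    (hw : ∀ i, 0 < w i) {c : ℕ → ℂ}
    {N : ℕ} (hc : (fun z : ℂ => G r a w z - ∑ j ∈ Finset.range N, c j * z ^ j) =O[𝓝 0]
        fun z => ‖z‖ ^ N) {s : ℂ} (hs : (r : ℝ) - N < s.re) :
    DifferentiableAt ℂ (mellin (hN r a w c N)) s :=
  mellin_differentiableAt_of_isBigO_rpow_exp ha (hN_locInt r a hw c N) (hN_top r a hw c N)
    (hN_bot r a hc) hs

theorem mellin_hN_convergent (r : ℕ) {a : ℝ} (ha : 0 < a) {w : Fin r → ℝ}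
    (hw : ∀ i, 0 < w i) {c : ℕ → ℂ}
    {N : ℕ} (hc : (fun z : ℂ => G r a w z - ∑ j ∈ Finset.range N, c j * z ^ j) =O[𝓝 0]
        fun z => ‖z‖ ^ N) {s : ℂ} (hs : (r : ℝ) - N < s.re) :
    MellinConvergent (hN r a w c N) s :=
  mellinConvergent_of_isBigO_rpow_exp ha (hN_locInt r a hw c N) (hN_top r a hw c N)
    (hN_bot r a hc) hs

theorem mellin_hN_succ (r : ℕ) {a : ℝ} (ha : 0 < a) {w : Fin r → ℝ}
    (hw : ∀ i, 0 < w i) {c : ℕ → ℂ}
    {N : ℕ} (hc : (fun z : ℂ => G r a w z - ∑ j ∈ Finset.range N, c j * z ^ j) =O[𝓝 0]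
        fun z => ‖z‖ ^ N) {s : ℂ} (hs : (r : ℝ) - N < s.re) :
    mellin (hN r a w c (N+1)) s = mellin (hN r a w c N) s - c N / (s + N - r) := by
  have h1 : hN r a w c (N+1) = fun x => hN r a w c N x - c N • cutPow r N x := by
    funext x
    unfold hN
    rw [Finset.sum_range_succ, smul_eq_mul]; ring
  have h2 : HasMellin (cutPow r N) s (1 / (s + ((N : ℂ) - r))) := by
    apply hasMellin_cpow_Ioc
    simp; linarith
  have h3 : HasMellin (fun x => c N • cutPow r N x) s (c N • (1 / (s + ((N : ℂ) - r)))) := by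
    have := hasMellin_const_smul h2.1 (c N)
    rwa [h2.2] at this
  have h4 := hasMellin_sub (mellin_hN_convergent r ha hw hc hs) h3.1
  rw [h1, h4.2, h3.2, smul_eq_mul, mul_one_div, add_sub_assoc]

end Pool.Agent.MP_047497_nt
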