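import Pool.Agent.Lib_MP_047497_nt.PartA2
open Complex MeasureTheory Set Filter Asymptotics
open scoped Topology
namespace Pool.Agent.MP_047497_nt

/-- the function `1 / (Γ(s) (s - (r - j)))`, with removable singularities removed. -/
noncomputable def E (r j : ℕ) : ℂ → ℂ :=
  if j < r then fun s => (Complex.Gamma s)⁻¹ / (s + j - r)
  else dslope (fun s => (Complex.Gamma s)⁻¹) ((r : ℂ) - j)

theorem E_of_ne {r j : ℕ} {s : ℂ} (hs : s ≠ (r : ℂ) - j) :
    E r j s = (Complex.Gamma s)⁻¹ / (s + j - r) := by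
  unfold E
  split_ifs with h
  · rfl
  · rw [dslope_of_ne _ hs, slope_def_field]
    have : (Complex.Gamma ((r : ℂ) - j))⁻¹ = 0 := by
      push Not at h
      have h1 : (r : ℂ) - j = -((j - r : ℕ) : ℂ) := by
        rw [Nat.cast_sub h]; ring
      rw [h1, Complex.Gamma_neg_nat_eq_zero, inv_zero]
    rw [this, sub_zero]
    congr 1; ring

theorem E_differentiableAt {r j : ℕ} {s : ℂ} (hs : r ≤ j ∨ s ≠ (r : ℂ) - j) :
    DifferentiableAt ℂ (E r j) s := by
  by_cases h : j < r
  · have hs' : s ≠ (r : ℂ) - j := by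
      rcases hs with h' | h'
      · omega
      · exact h'
    unfold E
    rw [if_pos h]
    refine DifferentiableAt.div (Complex.differentiable_one_div_Gamma s) (by fun_prop) ?_
    intro h2
    apply hs'
    linear_combination h2
  · have h1 : DifferentiableOn ℂ (E r j) univ := by
      unfold E
      rw [if_neg h, Complex.differentiableOn_dslope (by simp)]
      exact Complex.differentiable_one_div_Gamma.differentiableOn
    exact (differentiableOn_univ.1 h1) s

section
variable (r : ℕ) (a : ℝ) (w : Fin r → ℝ) (c : ℕ → ℂ)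

/-- The continuation, valid on `Re s > r - N`. -/
noncomputable def Zc (N : ℕ) (s : ℂ) : ℂ :=
  (Complex.Gamma s)⁻¹ * mellin (hN r a w c N) s + ∑ j ∈ Finset.range N, c j * E r j s

/-- The continuation. -/
noncomputable def Zfun (s : ℂ) : ℂ := Zc r a w c (⌈(r : ℝ) - s.re⌉₊ + 1) s

variable {r a w c}

theorem Zc_succ (ha : 0 < a) (hw : ∀ i, 0 < w i)
    (hc : ∀ N : ℕ, (fun z : ℂ => G r a w z - ∑ j ∈ Finset.range N, c j * z ^ j) =O[𝓝 0]
        fun z => ‖z‖ ^ N) {N : ℕ} {s : ℂ} (hs : (r : ℝ) - N < s.re) :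
    Zc r a w c (N+1) s = Zc r a w c N s := by
  unfold Zc
  have hne : s ≠ (r : ℂ) - N := by
    intro h
    rw [h] at hs
    simp at hs
  rw [Finset.sum_range_succ, E_of_ne hne, mellin_hN_succ r ha hw (hc N) hs]
  ring

theorem Zc_eq_of_le (ha : 0 < a) (hw : ∀ i, 0 < w i)
    (hc : ∀ N : ℕ, (fun z : ℂ => G r a w z - ∑ j ∈ Finset.range N, c j * z ^ j) =O[𝓝 0]
        fun z => ‖z‖ ^ N) {N M : ℕ} (hNM : N ≤ M) {s : ℂ} (hs : (r : ℝ) - N < s.re) :
    Zc r a w c M s = Zc r a w c N s := by
  induction M, hNM using Nat.le_induction with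
  | base => rfl
  | succ M hM ih =>
    rw [Zc_succ ha hw hc, ih]
    have : (N : ℝ) ≤ M := by exact_mod_cast hM
    linarith

theorem Zfun_eq (ha : 0 < a) (hw : ∀ i, 0 < w i)
    (hc : ∀ N : ℕ, (fun z : ℂ => G r a w z - ∑ j ∈ Finset.range N, c j * z ^ j) =O[𝓝 0]
        fun z => ‖z‖ ^ N) {N : ℕ} {s : ℂ} (hs : (r : ℝ) - N < s.re) :
    Zfun r a w c s = Zc r a w c N s := by
  unfold Zfun
  have h0 : (r : ℝ) - (⌈(r : ℝ) - s.re⌉₊ + 1 : ℕ) < s.re := by
    have := Nat.le_ceil ((r : ℝ) - s.re)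
    push_cast
    linarith
  rcases le_total N (⌈(r : ℝ) - s.re⌉₊ + 1) with h | h
  · exact Zc_eq_of_le ha hw hc h hs
  · exact (Zc_eq_of_le ha hw hc h h0).symm

theorem Zfun_eventuallyEq (ha : 0 < a) (hw : ∀ i, 0 < w i)
    (hc : ∀ N : ℕ, (fun z : ℂ => G r a w z - ∑ j ∈ Finset.range N, c j * z ^ j) =O[𝓝 0]
        fun z => ‖z‖ ^ N) {N : ℕ} {s : ℂ} (hs : (r : ℝ) - N < s.re) :
    Zfun r a w c =ᶠ[𝓝 s] Zc r a w c N := by
  have h1 : {z : ℂ | (r : ℝ) - N < z.re} ∈ 𝓝 s :=
    (isOpen_lt continuous_const Complex.continuous_re).mem_nhds hs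
  filter_upwards [h1] with z hz
  exact Zfun_eq ha hw hc hz

theorem Zfun_isBarnesZeta (ha : 0 < a) (hw : ∀ i, 0 < w i)
    (hc : ∀ N : ℕ, (fun z : ℂ => G r a w z - ∑ j ∈ Finset.range N, c j * z ^ j) =O[𝓝 0]
        fun z => ‖z‖ ^ N) : IsBarnesZeta r a w (Zfun r a w c) where
  eq_series s hs := by
    have h0 : (0 : ℝ) ≤ r := Nat.cast_nonneg r
    have h1 := hasSum_series ha hw hs
    have h2 : Complex.Gamma s ≠ 0 := by
      apply Complex.Gamma_ne_zero_of_re_pos
      linarith
    have h3 : Zfun r a w c s = (Complex.Gamma s)⁻¹ * mellin (fun x : ℝ => genF r a w x) s := by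
      rw [Zfun_eq ha hw hc (N := 0) (by simpa using hs)]
      unfold Zc hN
      simp
    rw [h3]
    have h4 := h1.mul_left (Complex.Gamma s)⁻¹
    refine h4.congr_fun fun m => ?_
    rw [← mul_assoc, inv_mul_cancel₀ h2, one_mul]
  differentiableAt s hs := by
    have h0 : (r : ℝ) - (⌈(r : ℝ) - s.re⌉₊ + 1 : ℕ) < s.re := by
      have := Nat.le_ceil ((r : ℝ) - s.re)
      push_cast
      linarith
    refine DifferentiableAt.congr_of_eventuallyEq ?_ (Zfun_eventuallyEq ha hw hc h0)
    unfold Zc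
    refine DifferentiableAt.add (DifferentiableAt.mul (Complex.differentiable_one_div_Gamma s)
      (mellin_hN_differentiableAt r ha hw (hc _) h0)) ?_
    refine DifferentiableAt.fun_sum fun j _ => ?_
    refine (E_differentiableAt ?_).const_mul _
    rcases le_or_gt r j with h | h
    · exact Or.inl h
    · right
      have := hs (r - j) (by omega) (by omega)
      rwa [Nat.cast_sub h.le] at this
  simple_pole j hj1 hj2 := by
    have h0 : (r : ℝ) - (r : ℕ) < ((j : ℂ)).re := by
      simp only [sub_self, natCast_re]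
      exact_mod_cast hj1
    have h0' := h0
    set i := r - j with hi
    have hir : i ∈ Finset.range r := by
      rw [Finset.mem_range]; omega
    have hij : (r : ℂ) - i = j := by
      rw [hi, Nat.cast_sub hj2]; ring
    refine ⟨fun s => (s - j) * ((Complex.Gamma s)⁻¹ * mellin (hN r a w c r) s +
      ∑ l ∈ (Finset.range r).erase i, c l * E r l s) + c i * (Complex.Gamma s)⁻¹, ?_, ?_⟩
    · -- analytic at j
      have hU : {z : ℂ | (j : ℝ) - 1 / 2 < z.re ∧ z.re < j + 1 / 2} ∈ 𝓝 (j : ℂ) := by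
        have ho : IsOpen {z : ℂ | (j : ℝ) - 1 / 2 < z.re ∧ z.re < j + 1 / 2} :=
          (isOpen_lt continuous_const Complex.continuous_re).inter
            (isOpen_lt Complex.continuous_re continuous_const)
        apply ho.mem_nhds
        simp
      refine DifferentiableOn.analyticAt (s := {z : ℂ | (j : ℝ) - 1 / 2 < z.re ∧
        z.re < j + 1 / 2}) ?_ hU
      intro s hs
      apply DifferentiableAt.differentiableWithinAt
      have hj1' : (1 : ℝ) ≤ j := by exact_mod_cast hj1
      have hs1 : (j : ℝ) - 1 / 2 < s.re := hs.1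
      have hs2 : s.re < (j : ℝ) + 1 / 2 := hs.2
      have hG := Complex.differentiable_one_div_Gamma s
      refine DifferentiableAt.add (DifferentiableAt.mul (by fun_prop) (DifferentiableAt.add
        (DifferentiableAt.mul hG
        (mellin_hN_differentiableAt r ha hw (hc _) ?_)) ?_)) (DifferentiableAt.const_mul hG _)
      · simp only [sub_self]; linarith
      · refine DifferentiableAt.fun_sum fun l hl => ?_
        refine (E_differentiableAt ?_).const_mul _
        right
        intro h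
        rw [Finset.mem_erase, Finset.mem_range] at hl
        have h1 : s = ((r - l : ℕ) : ℂ) := by
          rw [Nat.cast_sub hl.2.le]; exact h
        rw [h1] at hs1 hs2
        simp only [natCast_re] at hs1 hs2
        have h2 : (r - l : ℕ) ≠ j := by omega
        rcases lt_or_gt_of_ne h2 with h3 | h3
        · have : ((r - l : ℕ) : ℝ) + 1 ≤ j := by exact_mod_cast h3
          linarith
        · have : (j : ℝ) + 1 ≤ ((r - l : ℕ) : ℝ) := by exact_mod_cast h3
          linarith
    · have h1 : Zfun r a w c =ᶠ[𝓝[≠] (j : ℂ)] Zc r a w c r :=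
        (Zfun_eventuallyEq ha hw hc h0').filter_mono nhdsWithin_le_nhds
      filter_upwards [h1, self_mem_nhdsWithin] with s hs1 hs2
      have hne : s ≠ (j : ℂ) := hs2
      have hne' : s - j ≠ 0 := sub_ne_zero.2 hne
      rw [hs1, Zc, ← Finset.add_sum_erase _ _ hir, E_of_ne (by rw [hij]; exact hne)]
      have : s + i - r = s - j := by rw [← hij]; ring
      rw [this]
      field_simp
      ring

end

theorem exists_isBarnesZeta (r : ℕ) (a : ℝ) (ha : 0 < a) (w : Fin r → ℝ)
    (hw : ∀ i, 0 < w i) : ∃ Z, IsBarnesZeta r a w Z := by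
  obtain ⟨c, _, hc⟩ := exists_coeff r a hw
  exact ⟨_, Zfun_isBarnesZeta ha hw hc⟩

end Pool.Agent.MP_047497_nt
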