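import Pool.Agent.Lib_MP_047497_nt.PartA3
open Complex MeasureTheory Set Filter Asymptotics
open scoped Topology
namespace Pool.Agent.MP_047497_nt

/-- Uniqueness of the continuation. -/
theorem IsBarnesZeta.unique {r : ℕ} {a : ℝ} {w : Fin r → ℝ} {Z Z' : ℂ → ℂ}
    (hZ : IsBarnesZeta r a w Z) (hZ' : IsBarnesZeta r a w Z') (s : ℂ)
    (hs : ∀ j : ℕ, 1 ≤ j → j ≤ r → s ≠ j) : Z s = Z' s := by
  set U : Set ℂ := ((fun j : ℕ => (j : ℂ)) '' (Finset.Icc 1 r : Finset ℕ))ᶜ with hU
  have hmem : ∀ z : ℂ, z ∈ U ↔ ∀ j : ℕ, 1 ≤ j → j ≤ r → z ≠ j := by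
    intro z
    simp only [hU, mem_compl_iff, mem_image, Finset.coe_Icc, mem_Icc, not_exists, not_and, and_imp]
    constructor
    · intro h j h1 h2 h3; exact h j h1 h2 h3.symm
    · intro h j h1 h2 h3; exact h j h1 h2 h3.symm
  have hfin : ((fun j : ℕ => (j : ℂ)) '' (Finset.Icc 1 r : Finset ℕ)).Finite :=
    (Finset.finite_toSet _).image _
  have hopen : IsOpen U := hfin.isClosed.isOpen_compl
  have hpre : IsPreconnected U :=
    (hfin.countable.isConnected_compl_of_one_lt_rank (by simp)).isPreconnected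
  have hA : AnalyticOnNhd ℂ Z U := by
    apply DifferentiableOn.analyticOnNhd _ hopen
    intro z hz
    exact (hZ.differentiableAt z ((hmem z).1 hz)).differentiableWithinAt
  have hA' : AnalyticOnNhd ℂ Z' U := by
    apply DifferentiableOn.analyticOnNhd _ hopen
    intro z hz
    exact (hZ'.differentiableAt z ((hmem z).1 hz)).differentiableWithinAt
  have h0 : ((r : ℂ) + 1) ∈ U := by
    rw [hmem]
    intro j _ hj h
    have h1 := congrArg Complex.re h
    simp only [add_re, natCast_re, one_re] at h1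
    have : (j : ℝ) ≤ r := by exact_mod_cast hj
    linarith
  have hev : Z =ᶠ[𝓝 ((r : ℂ) + 1)] Z' := by
    have : {z : ℂ | (r : ℝ) < z.re} ∈ 𝓝 ((r : ℂ) + 1) := by
      apply (isOpen_lt continuous_const Complex.continuous_re).mem_nhds
      simp
    filter_upwards [this] with z hz
    exact (hZ.eq_series z hz).unique (hZ'.eq_series z hz)
  exact hA.eqOn_of_preconnected_of_eventuallyEq hA' hpre h0 hev ((hmem s).2 hs)

theorem hasMellin_tail {r : ℕ} {s : ℂ} (hs : s.re < r) :
    HasMellin (indicator (Ioi (1 : ℝ)) (fun t : ℝ => ((t : ℂ) ^ r)⁻¹)) s (-(1 / (s - r))) := by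
  have hlt : (s - 1 - r).re < -1 := by
    simp only [sub_re, one_re, natCast_re]; linarith
  have heq : ∀ t ∈ Ioi (1 : ℝ), (t : ℂ) ^ (s - 1) * ((t : ℂ) ^ r)⁻¹ = (t : ℂ) ^ (s - 1 - r) := by
    intro t ht
    have ht' : (1 : ℝ) < t := ht
    have ht0 : (t : ℂ) ≠ 0 := by
      have : t ≠ 0 := by linarith
      exact_mod_cast this
    rw [cpow_sub (s - 1) _ ht0, cpow_natCast, div_eq_mul_inv]
  have hsub : Ioi (1 : ℝ) ⊆ Ioi 0 := Ioi_subset_Ioi zero_le_one
  constructor
  · simp_rw [MellinConvergent, ← indicator_smul, IntegrableOn,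
      integrable_indicator_iff measurableSet_Ioi, IntegrableOn,
      Measure.restrict_restrict_of_subset hsub, smul_eq_mul]
    rw [← IntegrableOn]
    exact (integrableOn_Ioi_cpow_of_lt hlt one_pos).congr_fun (fun t ht => (heq t ht).symm)
      measurableSet_Ioi
  · simp_rw [mellin, ← indicator_smul, integral_indicator measurableSet_Ioi,
      Measure.restrict_restrict_of_subset hsub, smul_eq_mul]
    rw [setIntegral_congr_fun measurableSet_Ioi heq, integral_Ioi_cpow_of_lt hlt one_pos]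
    have : s - 1 - r + 1 = s - r := by ring
    rw [this, ofReal_one, one_cpow, neg_div]

theorem strip_formula (r : ℕ) (a : ℝ) (ha : 0 < a) (w : Fin r → ℝ)
    (hw : ∀ i, 0 < w i) {Z : ℂ → ℂ} (hZ : IsBarnesZeta r a w Z) (s : ℂ)
    (hs0 : 0 < s.re) (h1 : (r : ℝ) - 1 < s.re) (h2 : s.re < r) :
    MellinConvergent (fun x : ℝ => subF r a w x) s ∧
      mellin (fun x : ℝ => subF r a w x) s = Complex.Gamma s * Z s := by
  obtain ⟨c, hc0, hc⟩ := exists_coeff r a hw
  have hsj : ∀ j : ℕ, 1 ≤ j → j ≤ r → s ≠ j := by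
    intro j _ hj2 h
    rw [h] at h1 h2
    simp only [natCast_re] at h1 h2
    have h3 : j < r := by exact_mod_cast h2
    have h4 : (r : ℝ) < j + 1 := by linarith
    have h5 : r < j + 1 := by exact_mod_cast h4
    omega
  have hZs : Z s = Zc r a w c 1 s := by
    rw [hZ.unique (Zfun_isBarnesZeta ha hw hc) s hsj]
    exact Zfun_eq ha hw hc (by simpa using h1)
  have hne : s ≠ (r : ℂ) := by
    intro h
    rw [h] at h2
    simp at h2
  have hΓ : Complex.Gamma s ≠ 0 := Complex.Gamma_ne_zero_of_re_pos hs0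
  have hm1 : HasMellin (hN r a w c 1) s (mellin (hN r a w c 1) s) :=
    ⟨mellin_hN_convergent r ha hw (hc 1) (by simpa using h1), rfl⟩
  have hm2 := hasMellin_tail h2
  have hm3 := hasMellin_const_smul hm2.1 (c 0)
  have hm4 := hasMellin_sub hm1.1 hm3.1
  have hfun : ∀ x ∈ Ioi (0 : ℝ), hN r a w c 1 x - c 0 •
      indicator (Ioi (1 : ℝ)) (fun t : ℝ => ((t : ℂ) ^ r)⁻¹) x = subF r a w x := by
    intro x hx
    have hx' : 0 < x := hx
    have hx0 : (x : ℂ) ≠ 0 := by exact_mod_cast hx'.ne'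
    unfold hN subF cutPow
    rw [Finset.sum_range_one, hc0, smul_eq_mul, mul_inv]
    rcases le_or_gt x 1 with h | h
    · rw [indicator_of_mem (show x ∈ Ioc (0:ℝ) 1 from ⟨hx', h⟩),
        indicator_of_notMem (show x ∉ Ioi (1:ℝ) by simpa using h), mul_zero, sub_zero]
      congr 2
      rw [Nat.cast_zero, zero_sub, cpow_neg, cpow_natCast]
    · rw [indicator_of_notMem (show x ∉ Ioc (0:ℝ) 1 from fun h' => absurd h'.2 (by linarith)),
        indicator_of_mem (show x ∈ Ioi (1:ℝ) from h), mul_zero, sub_zero]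
  constructor
  · have := hm4.1
    unfold MellinConvergent at this ⊢
    refine this.congr_fun (fun x hx => ?_) measurableSet_Ioi
    simp only
    rw [hfun x hx]
  · have h5 : mellin (fun x : ℝ => subF r a w x) s = mellin (fun x => hN r a w c 1 x - c 0 •
      indicator (Ioi (1 : ℝ)) (fun t : ℝ => ((t : ℂ) ^ r)⁻¹) x) s := by
      unfold mellin
      refine setIntegral_congr_fun measurableSet_Ioi (fun x hx => ?_)
      simp only
      rw [hfun x hx]
    rw [h5, hm4.2, hm3.2, hm2.2, hZs, Zc, Finset.sum_range_one, smul_eq_mul,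
      E_of_ne (by simpa using hne)]
    have hne' : s - r ≠ 0 := sub_ne_zero.2 hne
    push_cast
    rw [add_zero]
    field_simp
    ring

end Pool.Agent.MP_047497_nt
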