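import Mathlib
set_option autoImplicit false
open Complex MeasureTheory Set Filter Asymptotics
open scoped Topology Nat
namespace Pool.Agent.MP_047497_nt

theorem x_div_sinh_le {x : ℝ} (hx : 0 < x) : x / Real.sinh x ≤ (1 + 2 * x) * Real.exp (-x) := by
  have h1 : 1 + 2 * x ≤ Real.exp (2 * x) := by
    have := Real.add_one_le_exp (2 * x); linarith
  have hs : 0 < Real.sinh x := Real.sinh_pos_iff.2 hx
  rw [div_le_iff₀ hs, Real.sinh_eq]
  have h2 : Real.exp (-x) * Real.exp x = 1 := by rw [← Real.exp_add]; simp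
  have h3 : Real.exp (2 * x) * Real.exp (-x) = Real.exp x := by rw [← Real.exp_add]; ring_nf
  have h4 : Real.exp (-x) * Real.exp (-x) * Real.exp (2 * x) = 1 := by
    rw [← Real.exp_add, ← Real.exp_add]; ring_nf; simp
  have h5 : 0 < Real.exp (-x) * Real.exp (-x) := by positivity
  -- need x ≤ (1+2x) e^{-x} (e^x - e^{-x})/2 = (1+2x)(1 - e^{-2x})/2
  have h6 : (1 + 2 * x) * Real.exp (-x) * ((Real.exp x - Real.exp (-x)) / 2) =
      (1 + 2 * x) * (1 - Real.exp (-x) * Real.exp (-x)) / 2 := by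
    linear_combination ((1 + 2 * x) / 2) * h2
  rw [h6]
  have h7 : Real.exp (-x) * Real.exp (-x) * (1 + 2 * x) ≤ 1 := by
    calc Real.exp (-x) * Real.exp (-x) * (1 + 2 * x)
        ≤ Real.exp (-x) * Real.exp (-x) * Real.exp (2 * x) :=
          mul_le_mul_of_nonneg_left h1 h5.le
      _ = 1 := h4
  nlinarith

theorem norm_Gamma_one (t : ℝ) :
    ‖Complex.Gamma (1 + t * I)‖ ^ 2 ≤ (1 + 2 * Real.pi * |t|) * Real.exp (-(Real.pi * |t|)) := by
  rcases eq_or_ne t 0 with rfl | ht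
  · simp
  have h1 := Complex.Gamma_mul_Gamma_one_sub (t * I)
  have htI : (t : ℂ) * I ≠ 0 := mul_ne_zero (by exact_mod_cast ht) I_ne_zero
  have h2 := Complex.Gamma_add_one (t * I) htI
  have h3 : ‖Complex.Gamma (1 - t * I)‖ = ‖Complex.Gamma (1 + t * I)‖ := by
    have : (1 : ℂ) - t * I = (starRingEnd ℂ) (1 + t * I) := by simp [sub_eq_add_neg]
    rw [this, Complex.Gamma_conj, Complex.norm_conj]
  have h4 : Complex.Gamma (1 + t * I) * Complex.Gamma (1 - t * I) =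
      (t * I) * (Real.pi / Complex.sin (Real.pi * (t * I))) := by
    rw [← h1, add_comm, h2]; ring
  have h5 : ‖Complex.Gamma (1 + t * I)‖ ^ 2 =
      ‖((t : ℂ) * I) * (Real.pi / Complex.sin (Real.pi * (t * I)))‖ := by
    rw [← h4, norm_mul, h3, sq]
  have h6 : Complex.sin (Real.pi * (t * I)) = (Real.sinh (Real.pi * t) : ℂ) * I := by
    rw [← mul_assoc, Complex.sin_mul_I, ← Complex.ofReal_mul, Complex.ofReal_sinh]
  rw [h5, h6, norm_mul, norm_div, norm_mul, norm_mul, Complex.norm_I, mul_one, mul_one,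
    Complex.norm_real, Complex.norm_real, Complex.norm_real, Real.norm_eq_abs, Real.norm_eq_abs,
    Real.norm_eq_abs, abs_of_pos Real.pi_pos]
  have hx : 0 < Real.pi * |t| := mul_pos Real.pi_pos (abs_pos.2 ht)
  have h7 : |Real.sinh (Real.pi * t)| = Real.sinh (Real.pi * |t|) := by
    rw [Real.abs_sinh, abs_mul, abs_of_pos Real.pi_pos]
  rw [h7]
  have := x_div_sinh_le hx
  calc |t| * (Real.pi / Real.sinh (Real.pi * |t|)) = (Real.pi * |t|) / Real.sinh (Real.pi * |t|) := by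
        ring
    _ ≤ (1 + 2 * (Real.pi * |t|)) * Real.exp (-(Real.pi * |t|)) := this
    _ = _ := by ring

theorem norm_Gamma_nat (N : ℕ) : ∃ C : ℝ, 0 ≤ C ∧ ∀ t : ℝ,
    ‖Complex.Gamma ((N : ℂ) + 1 + t * I)‖ ^ 2 ≤
      C * (1 + |t|) ^ (2 * N + 1) * Real.exp (-(Real.pi * |t|)) := by
  induction N with
  | zero =>
    refine ⟨2 * Real.pi, by positivity, fun t => ?_⟩
    have h := norm_Gamma_one t
    simp only [Nat.cast_zero, zero_add, mul_zero, pow_one]
    refine h.trans ?_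
    apply mul_le_mul_of_nonneg_right _ (Real.exp_pos _).le
    have := Real.pi_gt_three
    nlinarith [abs_nonneg t]
  | succ N ih =>
    obtain ⟨C, hC, h⟩ := ih
    refine ⟨C * ((N : ℝ) + 1) ^ 2, by positivity, fun t => ?_⟩
    have hne : (N : ℂ) + 1 + t * I ≠ 0 := by
      intro h0
      have := congrArg Complex.re h0
      simp at this
      have h1 : (0 : ℝ) ≤ N := Nat.cast_nonneg N
      linarith
    have h2 : ((N + 1 : ℕ) : ℂ) + 1 + t * I = ((N : ℂ) + 1 + t * I) + 1 := by push_cast; ring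
    rw [h2, Complex.Gamma_add_one _ hne, norm_mul, mul_pow]
    have h3 : ‖(N : ℂ) + 1 + t * I‖ ≤ ((N : ℝ) + 1) * (1 + |t|) := by
      calc ‖(N : ℂ) + 1 + t * I‖ ≤ ‖((N : ℂ) + 1)‖ + ‖(t : ℂ) * I‖ := norm_add_le _ _
        _ = ((N : ℝ) + 1) + |t| := by
          congr 1
          · have : ((N : ℂ) + 1) = ((N + 1 : ℕ) : ℂ) := by push_cast; rfl
            rw [this, Complex.norm_natCast]; push_cast; rfl
          · rw [norm_mul, Complex.norm_I, mul_one, Complex.norm_real, Real.norm_eq_abs]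
        _ ≤ _ := by
          have h1 : (0 : ℝ) ≤ N := Nat.cast_nonneg N
          nlinarith [abs_nonneg t, mul_nonneg h1 (abs_nonneg t)]
    calc ‖(N : ℂ) + 1 + t * I‖ ^ 2 * ‖Complex.Gamma ((N : ℂ) + 1 + t * I)‖ ^ 2
        ≤ (((N : ℝ) + 1) * (1 + |t|)) ^ 2 *
          (C * (1 + |t|) ^ (2 * N + 1) * Real.exp (-(Real.pi * |t|))) := by
          gcongr
          exact h t
      _ = _ := by ring

/-- the factorwise inequality (weighted AM-GM). -/
theorem factor_ineq {x t θ : ℝ} (hx : 1 ≤ x) (h0 : 0 ≤ θ) (h1 : θ ≤ 1) :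
    (x ^ 2 + t ^ 2) ^ (1 - θ) * ((x + 1) ^ 2 + t ^ 2) ^ θ ≤
      ((x + θ) ^ 2 + t ^ 2) * (1 + 1 / x ^ 2) := by
  have h := Real.geom_mean_le_arith_mean2_weighted (w₁ := 1 - θ) (w₂ := θ)
    (p₁ := x ^ 2 + t ^ 2) (p₂ := (x + 1) ^ 2 + t ^ 2) (by linarith) h0 (by positivity)
    (by positivity) (by ring)
  refine h.trans ?_
  have h2 : (1 - θ) * (x ^ 2 + t ^ 2) + θ * ((x + 1) ^ 2 + t ^ 2) =
      ((x + θ) ^ 2 + t ^ 2) + θ * (1 - θ) := by ring
  rw [h2, mul_add, mul_one]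
  have h3 : θ * (1 - θ) ≤ 1 := by nlinarith
  have h4 : 1 ≤ ((x + θ) ^ 2 + t ^ 2) * (1 / x ^ 2) := by
    rw [mul_one_div, one_le_div (by positivity)]
    nlinarith [sq_nonneg t]
  linarith

theorem prod_bound (n : ℕ) (x : ℝ) (hx : 1 ≤ x) :
    ∏ j ∈ Finset.range n, (1 + 1 / (x + j) ^ 2) ≤ Real.exp (∑' j : ℕ, 1 / ((j : ℝ) + 1) ^ 2) := by
  have hsum : Summable fun j : ℕ => 1 / ((j : ℝ) + 1) ^ 2 := by
    have h1 := (summable_nat_add_iff 1).2 (Real.summable_one_div_nat_pow.2 (by norm_num : 1 < 2))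
    refine h1.congr fun j => ?_
    push_cast; rfl
  calc ∏ j ∈ Finset.range n, (1 + 1 / (x + j) ^ 2)
      ≤ ∏ j ∈ Finset.range n, Real.exp (1 / ((j : ℝ) + 1) ^ 2) := by
        apply Finset.prod_le_prod
        · intro j _; positivity
        · intro j _
          have hj : (0 : ℝ) ≤ j := Nat.cast_nonneg j
          have h1 : 1 / (x + j) ^ 2 ≤ 1 / ((j : ℝ) + 1) ^ 2 := by
            apply one_div_le_one_div_of_le (by positivity)
            apply pow_le_pow_left₀ (by positivity)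
            linarith
          have h2 := Real.add_one_le_exp (1 / ((j : ℝ) + 1) ^ 2)
          linarith
    _ = Real.exp (∑ j ∈ Finset.range n, 1 / ((j : ℝ) + 1) ^ 2) := (Real.exp_sum _ _).symm
    _ ≤ _ := by
        apply Real.exp_le_exp.2
        exact hsum.sum_le_tsum _ (fun j _ => by positivity)

theorem norm_GammaSeq_sq (x t : ℝ) {n : ℕ} (hn : 0 < n) :
    ‖Complex.GammaSeq (x + t * I) n‖ ^ 2 =
      ((n : ℝ) ^ (2 * x)) * (n ! : ℝ) ^ 2 / ∏ j ∈ Finset.range (n + 1), ((x + j) ^ 2 + t ^ 2) := by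
  unfold Complex.GammaSeq
  rw [norm_div, norm_mul, norm_prod, div_pow, mul_pow, ← Finset.prod_pow]
  have hn' : (0 : ℝ) < n := by exact_mod_cast hn
  congr 1
  · congr 1
    · rw [Complex.norm_natCast_cpow_of_pos hn]
      simp only [add_re, ofReal_re, mul_re, I_re, mul_zero, ofReal_im, I_im, mul_one, sub_self,
        add_zero]
      rw [← Real.rpow_natCast, ← Real.rpow_mul hn'.le]
      congr 1; push_cast; ring
    · rw [Complex.norm_natCast]
  · apply Finset.prod_congr rfl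
    intro j _
    rw [← Complex.normSq_eq_norm_sq, Complex.normSq_apply]
    simp
    ring

/-- Interpolation inequality for the Gamma function on vertical lines. -/
theorem norm_Gamma_interp {x t θ : ℝ} (hx : 1 ≤ x) (h0 : 0 ≤ θ) (h1 : θ ≤ 1) :
    ‖Complex.Gamma ((x + θ : ℝ) + t * I)‖ ^ 2 ≤
      Real.exp (∑' j : ℕ, 1 / ((j : ℝ) + 1) ^ 2) *
        ((‖Complex.Gamma (x + t * I)‖ ^ 2) ^ (1 - θ) *
          (‖Complex.Gamma ((x + 1 : ℝ) + t * I)‖ ^ 2) ^ θ) := by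
  set K := Real.exp (∑' j : ℕ, 1 / ((j : ℝ) + 1) ^ 2) with hK
  have hlim : ∀ y : ℝ, Tendsto (fun n : ℕ => ‖Complex.GammaSeq (y + t * I) n‖ ^ 2) atTop
      (𝓝 (‖Complex.Gamma (y + t * I)‖ ^ 2)) := fun y =>
    ((Complex.GammaSeq_tendsto_Gamma _).norm).pow 2
  have hL := hlim (x + θ)
  have hR1 := (hlim x).rpow_const (p := 1 - θ) (Or.inr (by linarith))
  have hR2 := (hlim (x + 1)).rpow_const (p := θ) (Or.inr h0)
  have hR := (hR1.mul hR2).const_mul K
  refine le_of_tendsto_of_tendsto hL hR ?_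
  filter_upwards [eventually_gt_atTop 0] with n hn
  have hn' : (0 : ℝ) < n := by exact_mod_cast hn
  rw [norm_GammaSeq_sq _ _ hn, norm_GammaSeq_sq _ _ hn, norm_GammaSeq_sq _ _ hn]
  have hP : ∀ y : ℝ, 1 ≤ y → 0 < ∏ j ∈ Finset.range (n + 1), ((y + j) ^ 2 + t ^ 2) := by
    intro y hy
    apply Finset.prod_pos
    intro j _
    have hj : (0 : ℝ) ≤ j := Nat.cast_nonneg j
    positivity
  set P0 := ∏ j ∈ Finset.range (n + 1), ((x + j) ^ 2 + t ^ 2) with hP0
  set P1 := ∏ j ∈ Finset.range (n + 1), ((x + 1 + j) ^ 2 + t ^ 2) with hP1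
  set Pθ := ∏ j ∈ Finset.range (n + 1), ((x + θ + j) ^ 2 + t ^ 2) with hPθ
  have p0 : 0 < P0 := hP x hx
  have p1 : 0 < P1 := hP (x + 1) (by linarith)
  have pθ : 0 < Pθ := hP (x + θ) (by linarith)
  have key : P0 ^ (1 - θ) * P1 ^ θ ≤ Pθ * K := by
    rw [hP0, hP1, ← Real.finsetProd_rpow _ _ (fun j _ => by positivity),
      ← Real.finsetProd_rpow _ _ (fun j _ => by positivity), ← Finset.prod_mul_distrib]
    calc ∏ j ∈ Finset.range (n + 1), (((x + j) ^ 2 + t ^ 2) ^ (1 - θ) *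
          ((x + 1 + j) ^ 2 + t ^ 2) ^ θ)
        ≤ ∏ j ∈ Finset.range (n + 1), (((x + θ + j) ^ 2 + t ^ 2) * (1 + 1 / (x + j) ^ 2)) := by
          apply Finset.prod_le_prod
          · intro j _; positivity
          · intro j _
            have hj : (0 : ℝ) ≤ j := Nat.cast_nonneg j
            have := factor_ineq (x := x + j) (t := t) (by linarith) h0 h1
            have e1 : x + j + 1 = x + 1 + j := by ring
            have e2 : x + j + θ = x + θ + j := by ring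
            rw [e1, e2] at this
            exact this
      _ = Pθ * ∏ j ∈ Finset.range (n + 1), (1 + 1 / (x + j) ^ 2) := by
          rw [Finset.prod_mul_distrib]
      _ ≤ Pθ * K := by
          apply mul_le_mul_of_nonneg_left (prod_bound _ _ hx) pθ.le
  have hfac : (0 : ℝ) < (n ! : ℝ) := by exact_mod_cast Nat.factorial_pos n
  have hnum : ((n : ℝ) ^ (2 * (x + θ))) * (n ! : ℝ) ^ 2 =
      (((n : ℝ) ^ (2 * x)) * (n ! : ℝ) ^ 2) ^ (1 - θ) *
        (((n : ℝ) ^ (2 * (x + 1))) * (n ! : ℝ) ^ 2) ^ θ := by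
    rw [Real.mul_rpow (by positivity) (by positivity), Real.mul_rpow (by positivity)
      (by positivity), ← Real.rpow_mul hn'.le, ← Real.rpow_mul hn'.le]
    have e1 : ((n ! : ℝ) ^ 2) ^ (1 - θ) * ((n ! : ℝ) ^ 2) ^ θ = (n ! : ℝ) ^ 2 := by
      rw [← Real.rpow_add (by positivity)]
      simp
    have e2 : (n : ℝ) ^ (2 * x * (1 - θ)) * (n : ℝ) ^ (2 * (x + 1) * θ) =
        (n : ℝ) ^ (2 * (x + θ)) := by
      rw [← Real.rpow_add hn']
      congr 1; ring
    calc (n : ℝ) ^ (2 * (x + θ)) * (n ! : ℝ) ^ 2 =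
        ((n : ℝ) ^ (2 * x * (1 - θ)) * (n : ℝ) ^ (2 * (x + 1) * θ)) *
          (((n ! : ℝ) ^ 2) ^ (1 - θ) * ((n ! : ℝ) ^ 2) ^ θ) := by rw [e1, e2]
      _ = _ := by ring
  rw [Real.div_rpow (by positivity) p0.le, Real.div_rpow (by positivity) p1.le,
    div_mul_div_comm, ← hnum, div_le_iff₀ pθ, mul_comm K, mul_assoc, div_mul_eq_mul_div,
    le_div_iff₀ (by positivity)]
  apply mul_le_mul_of_nonneg_left _ (by positivity)
  rw [mul_comm K]
  exact key

/-- Sharp upper bound `|Γ(σ+it)| ≤ C (1+|t|)^{σ-1/2} e^{-π|t|/2}` for `σ ≥ 1`. -/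
theorem norm_Gamma_le {σ : ℝ} (hσ : 1 ≤ σ) : ∃ C : ℝ, 0 ≤ C ∧ ∀ t : ℝ,
    ‖Complex.Gamma (σ + t * I)‖ ≤
      C * (1 + |t|) ^ (σ - 1 / 2) * Real.exp (-(Real.pi / 2 * |t|)) := by
  set N : ℕ := ⌊σ - 1⌋₊ with hN
  have hN1 : (N : ℝ) ≤ σ - 1 := Nat.floor_le (by linarith)
  have hN2 : σ - 1 < N + 1 := Nat.lt_floor_add_one _
  set θ := σ - 1 - N with hθ
  have hθ0 : 0 ≤ θ := by linarith
  have hθ1 : θ ≤ 1 := by linarith
  have hNn : (0 : ℝ) ≤ N := Nat.cast_nonneg N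
  obtain ⟨C, hC, h⟩ := norm_Gamma_nat N
  obtain ⟨C', hC', h'⟩ := norm_Gamma_nat (N + 1)
  set K := Real.exp (∑' j : ℕ, 1 / ((j : ℝ) + 1) ^ 2) with hK
  refine ⟨Real.sqrt (K * (C ^ (1 - θ) * C' ^ θ)), Real.sqrt_nonneg _, fun t => ?_⟩
  have ht : 0 < 1 + |t| := by have := abs_nonneg t; linarith
  have h1 := norm_Gamma_interp (x := (N : ℝ) + 1) (t := t) (by linarith) hθ0 hθ1
  have e1 : ((((N : ℝ) + 1 + θ : ℝ)) : ℂ) = (σ : ℂ) := by
    rw [hθ]; congr 1; ring
  rw [e1] at h1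
  have h2 := h t
  have h3 := h' t
  have e2 : ((((N : ℝ) + 1 : ℝ)) : ℂ) = (N : ℂ) + 1 := by push_cast; rfl
  have e3 : ((((N : ℝ) + 1 + 1 : ℝ)) : ℂ) = ((N + 1 : ℕ) : ℂ) + 1 := by push_cast; rfl
  rw [e2, e3] at h1
  have hE : 0 < Real.exp (-(Real.pi * |t|)) := Real.exp_pos _
  have h4 : ‖Complex.Gamma (σ + t * I)‖ ^ 2 ≤
      K * (C ^ (1 - θ) * C' ^ θ) * ((1 + |t|) ^ (2 * σ - 1) * Real.exp (-(Real.pi * |t|))) := by
    refine h1.trans ?_
    rw [mul_assoc K]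
    apply mul_le_mul_of_nonneg_left _ (Real.exp_pos _).le
    calc (‖Complex.Gamma (↑N + 1 + t * I)‖ ^ 2) ^ (1 - θ) *
          (‖Complex.Gamma (((N + 1 : ℕ) : ℂ) + 1 + t * I)‖ ^ 2) ^ θ
        ≤ (C * (1 + |t|) ^ (2 * N + 1) * Real.exp (-(Real.pi * |t|))) ^ (1 - θ) *
          (C' * (1 + |t|) ^ (2 * (N + 1) + 1) * Real.exp (-(Real.pi * |t|))) ^ θ := by
          apply mul_le_mul _ _ (by positivity) (by positivity)
          · exact Real.rpow_le_rpow (by positivity) h2 (by linarith)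
          · exact Real.rpow_le_rpow (by positivity) h3 hθ0
      _ = _ := by
          rw [Real.mul_rpow (by positivity) hE.le, Real.mul_rpow (by positivity) hE.le,
            Real.mul_rpow hC (by positivity), Real.mul_rpow hC' (by positivity)]
          have a1 : Real.exp (-(Real.pi * |t|)) ^ (1 - θ) * Real.exp (-(Real.pi * |t|)) ^ θ =
              Real.exp (-(Real.pi * |t|)) := by
            rw [← Real.rpow_add hE]; simp
          have a2 : ((1 + |t|) ^ (2 * N + 1)) ^ (1 - θ) * ((1 + |t|) ^ (2 * (N + 1) + 1)) ^ θ =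
              (1 + |t|) ^ (2 * σ - 1) := by
            rw [← Real.rpow_natCast, ← Real.rpow_natCast, ← Real.rpow_mul ht.le,
              ← Real.rpow_mul ht.le, ← Real.rpow_add ht]
            congr 1
            push_cast
            rw [hθ]; ring
          calc C ^ (1 - θ) * ((1 + |t|) ^ (2 * N + 1)) ^ (1 - θ) *
                Real.exp (-(Real.pi * |t|)) ^ (1 - θ) *
                (C' ^ θ * ((1 + |t|) ^ (2 * (N + 1) + 1)) ^ θ *
                Real.exp (-(Real.pi * |t|)) ^ θ) =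
              C ^ (1 - θ) * C' ^ θ * ((((1 + |t|) ^ (2 * N + 1)) ^ (1 - θ) *
                ((1 + |t|) ^ (2 * (N + 1) + 1)) ^ θ) *
                (Real.exp (-(Real.pi * |t|)) ^ (1 - θ) * Real.exp (-(Real.pi * |t|)) ^ θ)) := by
                ring
            _ = _ := by rw [a1, a2]
  have h5 : ‖Complex.Gamma (σ + t * I)‖ = Real.sqrt (‖Complex.Gamma (σ + t * I)‖ ^ 2) :=
    (Real.sqrt_sq (norm_nonneg _)).symm
  rw [h5]
  refine (Real.sqrt_le_sqrt h4).trans (le_of_eq ?_)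
  have hM0 : 0 ≤ K * (C ^ (1 - θ) * C' ^ θ) := by positivity
  generalize K * (C ^ (1 - θ) * C' ^ θ) = M at hM0 ⊢
  have s1 : Real.sqrt ((1 + |t|) ^ (2 * σ - 1)) = (1 + |t|) ^ (σ - 1 / 2) := by
    rw [Real.sqrt_eq_rpow, ← Real.rpow_mul ht.le]
    congr 1; ring
  have s2 : Real.sqrt (Real.exp (-(Real.pi * |t|))) = Real.exp (-(Real.pi / 2 * |t|)) := by
    rw [Real.sqrt_eq_rpow, ← Real.exp_mul]
    congr 1; ring
  rw [Real.sqrt_mul hM0, Real.sqrt_mul (by positivity), s1, s2]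
  ring

end Pool.Agent.MP_047497_nt
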