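import Pool.Agent.Lib_MP_047497_nt.PartB1
set_option autoImplicit false
open Complex MeasureTheory Set Filter Asymptotics
open scoped Topology Nat
namespace Pool.Agent.MP_047497_nt

theorem rpow_mul_exp_le {c : ℝ} (hc : 0 < c) {x : ℝ} (hx : 0 < x) :
    x ^ c * Real.exp (-(x / 2)) ≤ (2 * c) ^ c := by
  have h1 : x / (2 * c) ≤ Real.exp (x / (2 * c)) := by
    have := Real.add_one_le_exp (x / (2 * c)); linarith
  have h2 : x ≤ 2 * c * Real.exp (x / (2 * c)) := by
    rw [div_le_iff₀ (by positivity)] at h1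
    linarith
  have h3 : x ^ c ≤ (2 * c) ^ c * Real.exp (x / 2) := by
    calc x ^ c ≤ (2 * c * Real.exp (x / (2 * c))) ^ c := Real.rpow_le_rpow hx.le h2 hc.le
      _ = (2 * c) ^ c * (Real.exp (x / (2 * c))) ^ c :=
          Real.mul_rpow (by positivity) (by positivity)
      _ = _ := by
          rw [← Real.exp_mul]
          congr 2
          field_simp
  calc x ^ c * Real.exp (-(x / 2)) ≤ (2 * c) ^ c * Real.exp (x / 2) * Real.exp (-(x / 2)) :=
        mul_le_mul_of_nonneg_right h3 (Real.exp_pos _).le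
    _ = (2 * c) ^ c := by rw [mul_assoc, ← Real.exp_add]; simp

/-- `t^c e^{-η t} ≤ (2c)^c η^{-c} e^{-η t/2}`. -/
theorem rpow_mul_exp_le' {c : ℝ} (hc : 0 < c) {η t : ℝ} (hη : 0 < η) (ht : 0 < t) :
    t ^ c * Real.exp (-(η * t)) ≤ (2 * c) ^ c * η ^ (-c) * Real.exp (-(η * t / 2)) := by
  have h := rpow_mul_exp_le hc (mul_pos hη ht)
  have h1 : t ^ c = η ^ (-c) * (η * t) ^ c := by
    rw [Real.mul_rpow hη.le ht.le, ← mul_assoc, ← Real.rpow_add hη]; simp
  have h2 : Real.exp (-(η * t)) = Real.exp (-(η * t / 2)) * Real.exp (-(η * t / 2)) := by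
    rw [← Real.exp_add]; congr 1; ring
  rw [h1, h2]
  calc η ^ (-c) * (η * t) ^ c * (Real.exp (-(η * t / 2)) * Real.exp (-(η * t / 2)))
      = η ^ (-c) * ((η * t) ^ c * Real.exp (-(η * t / 2))) * Real.exp (-(η * t / 2)) := by ring
    _ ≤ η ^ (-c) * (2 * c) ^ c * Real.exp (-(η * t / 2)) := by gcongr
    _ = _ := by ring

theorem moment_all {g : ℝ → ℝ} (hg : Continuous g) (hg0 : ∀ t, 0 ≤ g t) {ε : ℝ} (hε : 0 < ε)
    (hmom : (fun T : ℝ => ∫ t in (1:ℝ)..T, g t) =O[atTop] fun T : ℝ => T ^ (1 + ε)) :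
    ∃ K : ℝ, 0 ≤ K ∧ ∀ T : ℝ, 1 ≤ T → ∫ t in (1:ℝ)..T, g t ≤ K * T ^ (1 + ε) := by
  obtain ⟨C, hC⟩ := hmom.bound
  obtain ⟨T0, hT0⟩ := eventually_atTop.1 hC
  set T1 := max T0 1 with hT1
  have hT1' : 1 ≤ T1 := le_max_right _ _
  have hC' : ∀ T, T1 ≤ T → ∫ t in (1:ℝ)..T, g t ≤ |C| * T ^ (1 + ε) := by
    intro T hT
    have hT0' : (0 : ℝ) ≤ T := by linarith
    have h1 := hT0 T ((le_max_left _ _).trans hT)
    calc ∫ t in (1:ℝ)..T, g t ≤ ‖∫ t in (1:ℝ)..T, g t‖ := Real.le_norm_self _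
      _ ≤ C * ‖T ^ (1 + ε)‖ := h1
      _ ≤ |C| * ‖T ^ (1 + ε)‖ := mul_le_mul_of_nonneg_right (le_abs_self C) (norm_nonneg _)
      _ = |C| * T ^ (1 + ε) := by
        rw [Real.norm_eq_abs, abs_of_nonneg (show 0 ≤ T ^ (1 + ε) by positivity)]
  refine ⟨|C| * T1 ^ (1 + ε), by positivity, fun T hT => ?_⟩
  rcases le_total T1 T with h | h
  · refine (hC' T h).trans ?_
    rw [mul_assoc]
    apply mul_le_mul_of_nonneg_left _ (abs_nonneg C)
    have : (1 : ℝ) ≤ T1 ^ (1 + ε) := Real.one_le_rpow hT1' (by linarith)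
    have h2 : (0 : ℝ) ≤ T ^ (1 + ε) := by positivity
    nlinarith
  · have h1 : ∫ t in (1:ℝ)..T, g t ≤ ∫ t in (1:ℝ)..T1, g t := by
      apply intervalIntegral.integral_mono_interval le_rfl hT h
      · exact Eventually.of_forall fun t => hg0 t
      · exact hg.intervalIntegrable _ _
    refine (h1.trans (hC' T1 le_rfl)).trans ?_
    have : (1 : ℝ) ≤ T ^ (1 + ε) := Real.one_le_rpow hT (by linarith)
    exact le_mul_of_one_le_right (by positivity) this

theorem exp_moment {g : ℝ → ℝ} (hg : Continuous g) {ε K : ℝ} (hε : 0 < ε)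
    (hK : 0 ≤ K) (hW : ∀ T : ℝ, 1 ≤ T → ∫ t in (1:ℝ)..T, g t ≤ K * T ^ (1 + ε))
    {η : ℝ} (hη : 0 < η) {T : ℝ} (hT : 1 ≤ T) :
    ∫ t in (1:ℝ)..T, Real.exp (-(η * t)) * g t ≤
      (3 * K * (2 * (1 + ε)) ^ (1 + ε)) * η ^ (-(1 + ε)) := by
  set W : ℝ → ℝ := fun T => ∫ t in (1:ℝ)..T, g t with hWdef
  have hWd : ∀ x, HasDerivAt W (g x) x := fun x =>
    intervalIntegral.integral_hasDerivAt_right (hg.intervalIntegrable _ _)
      (hg.stronglyMeasurableAtFilter _ _) hg.continuousAt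
  have hWc : Continuous W := continuous_iff_continuousAt.2 fun x => (hWd x).continuousAt
  have hed : ∀ x, HasDerivAt (fun t => Real.exp (-(η * t))) (-(η * Real.exp (-(η * x)))) x := by
    intro x
    have h1 : HasDerivAt (fun t : ℝ => -(η * t)) (-(η * 1)) x :=
      ((hasDerivAt_id x).const_mul η).neg
    have := h1.exp
    convert this using 1
    ring
  have hparts := intervalIntegral.integral_mul_deriv_eq_deriv_mul (a := 1) (b := T)
    (u := fun t => Real.exp (-(η * t))) (u' := fun t => -(η * Real.exp (-(η * t))))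
    (v := W) (v' := g) (fun x _ => hed x) (fun x _ => hWd x)
    ((by fun_prop : Continuous fun t => -(η * Real.exp (-(η * t)))).intervalIntegrable _ _)
    (hg.intervalIntegrable _ _)
  have hW1 : W 1 = 0 := by simp [hWdef]
  set A := (2 * (1 + ε)) ^ (1 + ε) * η ^ (-(1 + ε)) with hA
  have hA0 : 0 ≤ A := by positivity
  have hbound : ∀ x : ℝ, 1 ≤ x → Real.exp (-(η * x)) * W x ≤ K * A * Real.exp (-(η * x / 2)) := by
    intro x hx
    have hx0 : 0 < x := by linarith
    have h1 := rpow_mul_exp_le' (c := 1 + ε) (by linarith) hη hx0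
    calc Real.exp (-(η * x)) * W x ≤ Real.exp (-(η * x)) * (K * x ^ (1 + ε)) :=
          mul_le_mul_of_nonneg_left (hW x hx) (Real.exp_pos _).le
      _ = K * (x ^ (1 + ε) * Real.exp (-(η * x))) := by ring
      _ ≤ K * (A * Real.exp (-(η * x / 2))) := mul_le_mul_of_nonneg_left h1 hK
      _ = _ := by ring
  rw [hparts, hW1, mul_zero, sub_zero]
  have h2 : -∫ x in (1:ℝ)..T, -(η * Real.exp (-(η * x))) * W x ≤ 2 * (K * A) := by
    rw [← intervalIntegral.integral_neg]
    have h3 : ∫ x in (1:ℝ)..T, -(-(η * Real.exp (-(η * x))) * W x) ≤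
        ∫ x in (1:ℝ)..T, (K * A) * (η * Real.exp (-(η * x / 2))) := by
      apply intervalIntegral.integral_mono_on hT
      · exact (by fun_prop : Continuous fun x =>
          -(-(η * Real.exp (-(η * x))) * W x)).intervalIntegrable _ _
      · exact (by fun_prop : Continuous fun x =>
          (K * A) * (η * Real.exp (-(η * x / 2)))).intervalIntegrable _ _
      · intro x hx
        have := hbound x hx.1
        calc -(-(η * Real.exp (-(η * x))) * W x) = η * (Real.exp (-(η * x)) * W x) := by ring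
          _ ≤ η * (K * A * Real.exp (-(η * x / 2))) := mul_le_mul_of_nonneg_left this hη.le
          _ = _ := by ring
    refine h3.trans ?_
    rw [intervalIntegral.integral_const_mul]
    have h4 : ∫ x in (1:ℝ)..T, η * Real.exp (-(η * x / 2)) =
        (-2 * Real.exp (-(η * T / 2))) - (-2 * Real.exp (-(η * 1 / 2))) := by
      apply intervalIntegral.integral_eq_sub_of_hasDerivAt
        (f := fun x => -2 * Real.exp (-(η * x / 2)))
      · intro x _
        have h1 : HasDerivAt (fun t : ℝ => -(η * t / 2)) (-(η * 1 / 2)) x :=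
          (((hasDerivAt_id x).const_mul η).div_const 2).neg
        have := (h1.exp).const_mul (-2)
        refine this.congr_deriv ?_
        ring
      · exact (by fun_prop : Continuous fun x => η * Real.exp (-(η * x / 2))).intervalIntegrable _ _
    rw [h4]
    have h5 : Real.exp (-(η * 1 / 2)) ≤ 1 := Real.exp_le_one_iff.2 (by nlinarith)
    have h6 : 0 < Real.exp (-(η * T / 2)) := Real.exp_pos _
    have h7 : 0 ≤ K * A := mul_nonneg hK hA0
    nlinarith
  have h3 := hbound T hT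
  have h4 : Real.exp (-(η * T / 2)) ≤ 1 := Real.exp_le_one_iff.2 (by nlinarith)
  have h5 : K * A * Real.exp (-(η * T / 2)) ≤ K * A := by
    have h7 : 0 ≤ K * A := mul_nonneg hK hA0
    nlinarith
  have h6 : 3 * K * (2 * (1 + ε)) ^ (1 + ε) * η ^ (-(1 + ε)) = 3 * (K * A) := by rw [hA]; ring
  rw [h6]
  linarith

theorem pointwise_pow {u c : ℝ} (hu : 0 ≤ u) (hc : 0 < c) {k : ℕ} (hk : 1 ≤ k) :
    u ≤ c + (c ^ (2 * k - 1))⁻¹ * u ^ (2 * k) := by
  rcases le_or_gt u c with h | h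
  · have : 0 ≤ (c ^ (2 * k - 1))⁻¹ * u ^ (2 * k) := by positivity
    linarith
  · have h1 : c ^ (2 * k - 1) ≤ u ^ (2 * k - 1) := pow_le_pow_left₀ hc.le h.le _
    have h2 : u ^ (2 * k) = u ^ (2 * k - 1) * u := by
      rw [← pow_succ]; congr 1; omega
    have h3 : 1 ≤ (c ^ (2 * k - 1))⁻¹ * u ^ (2 * k - 1) := by
      rw [inv_mul_eq_div, one_le_div (by positivity)]
      exact h1
    rw [h2, ← mul_assoc]
    nlinarith

/-- weighted first moment -/
theorem weighted_moment {u : ℝ → ℝ} (hu : Continuous u) (hu0 : ∀ t, 0 ≤ u t) {k : ℕ} (hk : 1 ≤ k)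
    {ε β : ℝ} (hε : 0 < ε) (hβ : 0 < β)
    (hmom : (fun T : ℝ => ∫ t in (1:ℝ)..T, u t ^ (2 * k)) =O[atTop] fun T : ℝ => T ^ (1 + ε)) :
    ∃ K : ℝ, 0 ≤ K ∧ ∀ η : ℝ, 0 < η → ∀ T : ℝ, 1 ≤ T →
      ∫ t in (1:ℝ)..T, t ^ β * Real.exp (-(η * t)) * u t ≤ K * η ^ (-(β + 1 + ε / (2 * k))) := by
  obtain ⟨K0, hK0, hW⟩ := moment_all (hu.pow (2 * k)) (fun t => pow_nonneg (hu0 t) _) hε hmom
  have hk' : (0 : ℝ) < k := by exact_mod_cast hk
  set K1 := 3 * K0 * (2 * (1 + ε)) ^ (1 + ε) with hK1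
  have hK1' : 0 ≤ K1 := by positivity
  refine ⟨(2 * β) ^ β * (2 + K1 * (1 / 2) ^ (-(1 + ε))), by positivity, fun η hη T hT => ?_⟩
  set c := η ^ (-(ε / (2 * k))) with hc
  have hc0 : 0 < c := by positivity
  have h1 : ∫ t in (1:ℝ)..T, t ^ β * Real.exp (-(η * t)) * u t ≤
      ∫ t in (1:ℝ)..T, (2 * β) ^ β * η ^ (-β) * (c * Real.exp (-(η / 2 * t)) +
        (c ^ (2 * k - 1))⁻¹ * (Real.exp (-(η / 2 * t)) * u t ^ (2 * k))) := by
    apply intervalIntegral.integral_mono_on hT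
    · apply ContinuousOn.intervalIntegrable
      refine ContinuousOn.mul (ContinuousOn.mul ?_ (by fun_prop)) hu.continuousOn
      intro x hx
      rw [uIcc_of_le hT] at hx
      have hx0 : x ≠ 0 := by have := hx.1; linarith
      exact (Real.continuousAt_rpow_const x β (Or.inl hx0)).continuousWithinAt
    · exact (by fun_prop : Continuous fun t => (2 * β) ^ β * η ^ (-β) *
        (c * Real.exp (-(η / 2 * t)) + (c ^ (2 * k - 1))⁻¹ *
          (Real.exp (-(η / 2 * t)) * u t ^ (2 * k)))).intervalIntegrable _ _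
    · intro t ht
      have ht0 : 0 < t := by have := ht.1; linarith
      have h2 := rpow_mul_exp_le' hβ hη ht0
      have h3 := pointwise_pow (hu0 t) hc0 hk
      have e1 : η * t / 2 = η / 2 * t := by ring
      rw [e1] at h2
      calc t ^ β * Real.exp (-(η * t)) * u t
          ≤ ((2 * β) ^ β * η ^ (-β) * Real.exp (-(η / 2 * t))) *
            (c + (c ^ (2 * k - 1))⁻¹ * u t ^ (2 * k)) := by
            apply mul_le_mul h2 h3 (hu0 t) (by positivity)
        _ = _ := by ring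
  refine h1.trans ?_
  rw [intervalIntegral.integral_const_mul, intervalIntegral.integral_add,
    intervalIntegral.integral_const_mul, intervalIntegral.integral_const_mul]
  rotate_left
  · exact (by fun_prop : Continuous fun t => c * Real.exp (-(η / 2 * t))).intervalIntegrable _ _
  · exact (by fun_prop : Continuous fun t => (c ^ (2 * k - 1))⁻¹ *
          (Real.exp (-(η / 2 * t)) * u t ^ (2 * k))).intervalIntegrable _ _
  have h2 := exp_moment (hu.pow (2 * k)) hε hK0 hW (half_pos hη) hT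
  have h3 : ∫ x in (1:ℝ)..T, Real.exp (-(η / 2 * x)) ≤ 2 * η⁻¹ := by
    have h4 : ∫ x in (1:ℝ)..T, Real.exp (-(η / 2 * x)) =
        (-(2 * η⁻¹) * Real.exp (-(η / 2 * T))) - (-(2 * η⁻¹) * Real.exp (-(η / 2 * 1))) := by
      apply intervalIntegral.integral_eq_sub_of_hasDerivAt
        (f := fun x => -(2 * η⁻¹) * Real.exp (-(η / 2 * x)))
      · intro x _
        have h1 : HasDerivAt (fun t : ℝ => -(η / 2 * t)) (-(η / 2 * 1)) x :=
          ((hasDerivAt_id x).const_mul (η / 2)).neg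
        have := (h1.exp).const_mul (-(2 * η⁻¹))
        refine this.congr_deriv ?_
        field_simp
      · exact (by fun_prop : Continuous fun x => Real.exp (-(η / 2 * x))).intervalIntegrable _ _
    rw [h4]
    have h5 : Real.exp (-(η / 2 * 1)) ≤ 1 := Real.exp_le_one_iff.2 (by nlinarith)
    have h6 : 0 < Real.exp (-(η / 2 * T)) := Real.exp_pos _
    have h7 : 0 < η⁻¹ := inv_pos.2 hη
    nlinarith
  -- combine
  have e1 : (c ^ (2 * k - 1))⁻¹ * (K1 * (η / 2) ^ (-(1 + ε))) =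
      K1 * (1 / 2) ^ (-(1 + ε)) * η ^ (-(1 + ε / (2 * k))) := by
    have a1 : (c ^ (2 * k - 1))⁻¹ = η ^ (ε - ε / (2 * k)) := by
      rw [hc, ← Real.rpow_natCast, ← Real.rpow_mul hη.le, ← Real.rpow_neg hη.le]
      congr 1
      rw [Nat.cast_sub (by omega)]
      push_cast
      field_simp
    have a2 : (η / 2) ^ (-(1 + ε)) = (1 / 2) ^ (-(1 + ε)) * η ^ (-(1 + ε)) := by
      rw [← Real.mul_rpow (by norm_num) hη.le]
      congr 1; ring
    rw [a1, a2]
    calc η ^ (ε - ε / (2 * k)) * (K1 * ((1 / 2) ^ (-(1 + ε)) * η ^ (-(1 + ε))))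
        = K1 * (1 / 2) ^ (-(1 + ε)) * (η ^ (ε - ε / (2 * k)) * η ^ (-(1 + ε))) := by ring
      _ = _ := by
          rw [← Real.rpow_add hη]
          congr 2; ring
  have e2 : c * (2 * η⁻¹) = 2 * η ^ (-(1 + ε / (2 * k))) := by
    rw [hc, ← Real.rpow_neg_one η]
    calc η ^ (-(ε / (2 * k))) * (2 * η ^ (-1 : ℝ)) = 2 * (η ^ (-(ε / (2 * k))) * η ^ (-1 : ℝ)) := by
          ring
      _ = _ := by
          rw [← Real.rpow_add hη]
          congr 2; ring
  have e3 : η ^ (-β) * η ^ (-(1 + ε / (2 * k))) = η ^ (-(β + 1 + ε / (2 * k))) := by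
    rw [← Real.rpow_add hη]; congr 1; ring
  calc (2 * β) ^ β * η ^ (-β) * (c * (∫ x in (1:ℝ)..T, Real.exp (-(η / 2 * x))) +
        (c ^ (2 * k - 1))⁻¹ * ∫ x in (1:ℝ)..T, Real.exp (-(η / 2 * x)) * u x ^ (2 * k))
      ≤ (2 * β) ^ β * η ^ (-β) * (c * (2 * η⁻¹) +
        (c ^ (2 * k - 1))⁻¹ * (K1 * (η / 2) ^ (-(1 + ε)))) := by
        apply mul_le_mul_of_nonneg_left _ (by positivity)
        apply add_le_add
        · exact mul_le_mul_of_nonneg_left h3 hc0.le
        · exact mul_le_mul_of_nonneg_left h2 (by positivity)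
    _ = (2 * β) ^ β * (2 + K1 * (1 / 2) ^ (-(1 + ε))) *
          (η ^ (-β) * η ^ (-(1 + ε / (2 * k)))) := by
        rw [e1, e2]; ring
    _ = _ := by rw [e3]

end Pool.Agent.MP_047497_nt
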