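import Pool.Agent.Lib_MP_047497_nt.PartB2
set_option autoImplicit false
open Complex MeasureTheory Set Filter Asymptotics
open scoped Topology Nat
namespace Pool.Agent.MP_047497_nt

theorem even_integrable {f : ℝ → ℝ} (hf : ∀ x, f (-x) = f x) (h : IntegrableOn f (Ioi 0)) :
    Integrable f ∧ ∫ x, f x = 2 * ∫ x in Ioi (0 : ℝ), f x := by
  have hf' : ∀ x, f |x| = f x := by
    intro x
    rcases abs_choice x with h1 | h1
    · rw [h1]
    · rw [h1, hf]
  have h1 : IntegrableOn f (Iic 0) := by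
    rw [← Measure.map_neg_eq_self (volume : Measure ℝ)]
    let m : MeasurableEmbedding fun x : ℝ => -x := (Homeomorph.neg ℝ).measurableEmbedding
    rw [m.integrableOn_map_iff]
    simp_rw [Function.comp_def, hf, neg_preimage, neg_Iic, neg_zero]
    exact Iff.mpr integrableOn_Ici_iff_integrableOn_Ioi h
  constructor
  · rw [← integrableOn_univ, ← Iic_union_Ioi (a := (0:ℝ))]
    exact h1.union h
  · have := integral_comp_abs (f := f)
    simp_rw [hf'] at this
    exact this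

/-- Integrability of `H(t) e^{(π/2-η)|t|}` and the bound `O(η^{-(σ+1/2+ε/2k)})`. -/
theorem exp_integrable {H u : ℝ → ℝ} (hH : Continuous H) (hH0 : ∀ t, 0 ≤ H t)
    (hev : ∀ t, H (-t) = H t) (hu : Continuous u) (hu0 : ∀ t, 0 ≤ u t) {σ : ℝ} (hσ : 1 ≤ σ)
    {C : ℝ} (hC : 0 ≤ C)
    (hHu : ∀ t, H t ≤ C * (1 + |t|) ^ (σ - 1 / 2) * Real.exp (-(Real.pi / 2 * |t|)) * u t)
    {k : ℕ} (hk : 1 ≤ k) {ε : ℝ} (hε : 0 < ε)
    (hmom : (fun T : ℝ => ∫ t in (1:ℝ)..T, u t ^ (2 * k)) =O[atTop] fun T : ℝ => T ^ (1 + ε)) :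
    ∃ K : ℝ, 0 ≤ K ∧ ∀ η : ℝ, 0 < η → η ≤ Real.pi / 2 →
      Integrable (fun t => H t * Real.exp ((Real.pi / 2 - η) * |t|)) ∧
      ∫ t, H t * Real.exp ((Real.pi / 2 - η) * |t|) ≤ K * η ^ (-(σ + 1 / 2 + ε / (2 * k))) := by
  have hk' : (0 : ℝ) < k := by exact_mod_cast hk
  obtain ⟨K0, hK0, hW⟩ := weighted_moment hu hu0 hk (β := σ - 1 / 2) hε (by linarith) hmom
  set a := σ + 1 / 2 + ε / (2 * k) with ha
  have ha0 : 0 < a := by positivity
  have haeq : -(σ - 1 / 2 + 1 + ε / (2 * k)) = -a := by rw [ha]; ring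
  rw [haeq] at hW
  set K1 := C * 2 ^ (σ - 1 / 2) * K0 with hK1
  have hK1' : 0 ≤ K1 := by positivity
  set M := ∫ t in (0:ℝ)..1, H t * Real.exp (Real.pi / 2) with hM
  have hM0 : 0 ≤ M := by
    apply intervalIntegral.integral_nonneg zero_le_one
    intro t _
    exact mul_nonneg (hH0 t) (Real.exp_pos _).le
  refine ⟨2 * (M * (Real.pi / 2) ^ a + K1), by positivity, fun η hη hη2 => ?_⟩
  set F : ℝ → ℝ := fun t => H t * Real.exp ((Real.pi / 2 - η) * |t|) with hF
  have hFc : Continuous F := by fun_prop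
  have hF0 : ∀ t, 0 ≤ F t := fun t => mul_nonneg (hH0 t) (Real.exp_pos _).le
  have hFev : ∀ t, F (-t) = F t := by
    intro t; simp only [hF, hev, abs_neg]
  have hpt : ∀ t, 1 ≤ t → F t ≤ (C * 2 ^ (σ - 1 / 2)) *
      (t ^ (σ - 1 / 2) * Real.exp (-(η * t)) * u t) := by
    intro t ht
    have ht0 : 0 < t := by linarith
    have h1 := hHu t
    rw [abs_of_pos ht0] at h1
    have h2 : (1 + t) ^ (σ - 1 / 2) ≤ 2 ^ (σ - 1 / 2) * t ^ (σ - 1 / 2) := by
      rw [← Real.mul_rpow two_pos.le ht0.le]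
      exact Real.rpow_le_rpow (by linarith) (by linarith) (by linarith)
    simp only [hF]
    rw [abs_of_pos ht0]
    have h3 : Real.exp (-(Real.pi / 2 * t)) * Real.exp ((Real.pi / 2 - η) * t) =
        Real.exp (-(η * t)) := by
      rw [← Real.exp_add]; congr 1; ring
    calc H t * Real.exp ((Real.pi / 2 - η) * t)
        ≤ (C * (1 + t) ^ (σ - 1 / 2) * Real.exp (-(Real.pi / 2 * t)) * u t) *
            Real.exp ((Real.pi / 2 - η) * t) :=
          mul_le_mul_of_nonneg_right h1 (Real.exp_pos _).le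
      _ = C * (1 + t) ^ (σ - 1 / 2) * (Real.exp (-(Real.pi / 2 * t)) *
            Real.exp ((Real.pi / 2 - η) * t)) * u t := by ring
      _ = C * (1 + t) ^ (σ - 1 / 2) * Real.exp (-(η * t)) * u t := by rw [h3]
      _ ≤ C * (2 ^ (σ - 1 / 2) * t ^ (σ - 1 / 2)) * Real.exp (-(η * t)) * u t := by
          apply mul_le_mul_of_nonneg_right _ (hu0 t)
          apply mul_le_mul_of_nonneg_right _ (Real.exp_pos _).le
          exact mul_le_mul_of_nonneg_left h2 hC
      _ = _ := by ring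
  have hfin : ∀ T : ℝ, 1 ≤ T → ∫ t in (1:ℝ)..T, F t ≤ K1 * η ^ (-a) := by
    intro T hT
    have h1 : ∫ t in (1:ℝ)..T, F t ≤ ∫ t in (1:ℝ)..T, (C * 2 ^ (σ - 1 / 2)) *
        (t ^ (σ - 1 / 2) * Real.exp (-(η * t)) * u t) := by
      apply intervalIntegral.integral_mono_on hT
      · exact hFc.intervalIntegrable _ _
      · apply ContinuousOn.intervalIntegrable
        refine ContinuousOn.mul continuousOn_const
          (ContinuousOn.mul (ContinuousOn.mul ?_ (by fun_prop)) hu.continuousOn)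
        intro x hx
        rw [uIcc_of_le hT] at hx
        have hx0 : x ≠ 0 := by have := hx.1; linarith
        exact (Real.continuousAt_rpow_const x _ (Or.inl hx0)).continuousWithinAt
      · intro t ht
        exact hpt t ht.1
    refine h1.trans ?_
    rw [intervalIntegral.integral_const_mul]
    calc C * 2 ^ (σ - 1 / 2) * ∫ t in (1:ℝ)..T, t ^ (σ - 1 / 2) * Real.exp (-(η * t)) * u t
        ≤ C * 2 ^ (σ - 1 / 2) * (K0 * η ^ (-a)) :=
          mul_le_mul_of_nonneg_left (hW η hη T hT) (by positivity)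
      _ = _ := by rw [hK1]; ring
  have hI1 : IntegrableOn F (Ioi 1) := by
    refine integrableOn_Ioi_of_intervalIntegral_norm_bounded (b := fun T : ℝ => T) (l := atTop)
      (K1 * η ^ (-a)) 1 ?_ tendsto_id ?_
    · intro T
      exact (hFc.integrableOn_Icc).mono_set Ioc_subset_Icc_self
    · filter_upwards [eventually_ge_atTop 1] with T hT
      have : ∀ x, ‖F x‖ = F x := fun x => by rw [Real.norm_eq_abs, abs_of_nonneg (hF0 x)]
      simp_rw [this]
      exact hfin T hT
  have hint1 : ∫ t in Ioi (1:ℝ), F t ≤ K1 * η ^ (-a) := by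
    refine le_of_tendsto (intervalIntegral_tendsto_integral_Ioi 1 hI1 tendsto_id) ?_
    filter_upwards [eventually_ge_atTop 1] with T hT
    exact hfin T hT
  have hI0 : IntegrableOn F (Ioc 0 1) := (hFc.integrableOn_Icc).mono_set Ioc_subset_Icc_self
  have hI : IntegrableOn F (Ioi 0) := by
    rw [← Ioc_union_Ioi_eq_Ioi (zero_le_one : (0:ℝ) ≤ 1)]
    exact hI0.union hI1
  obtain ⟨hint, hval⟩ := even_integrable hFev hI
  refine ⟨hint, ?_⟩
  rw [hval, ← Ioc_union_Ioi_eq_Ioi (zero_le_one : (0:ℝ) ≤ 1),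
    setIntegral_union (Ioc_disjoint_Ioi le_rfl) measurableSet_Ioi hI0 hI1,
    ← intervalIntegral.integral_of_le zero_le_one]
  have h3 : ∫ t in (0:ℝ)..1, F t ≤ M := by
    apply intervalIntegral.integral_mono_on zero_le_one
    · exact hFc.intervalIntegrable _ _
    · exact (hH.mul continuous_const).intervalIntegrable _ _
    · intro t ht
      apply mul_le_mul_of_nonneg_left _ (hH0 t)
      apply Real.exp_le_exp.2
      rw [abs_of_nonneg ht.1]
      have : 0 ≤ Real.pi / 2 - η := by linarith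
      nlinarith [ht.1, ht.2]
  have h4 : 1 ≤ (Real.pi / 2) ^ a * η ^ (-a) := by
    rw [Real.rpow_neg hη.le, ← div_eq_mul_inv, ← Real.div_rpow (by positivity) hη.le]
    apply Real.one_le_rpow _ ha0.le
    rw [one_le_div hη]
    exact hη2
  have h5 : M ≤ M * (Real.pi / 2) ^ a * η ^ (-a) := by
    rw [mul_assoc]
    exact le_mul_of_one_le_right hM0 h4
  calc 2 * ((∫ t in (0:ℝ)..1, F t) + ∫ t in Ioi (1:ℝ), F t)
      ≤ 2 * (M * (Real.pi / 2) ^ a * η ^ (-a) + K1 * η ^ (-a)) := by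
        apply mul_le_mul_of_nonneg_left _ two_pos.le
        exact add_le_add (h3.trans h5) hint1
    _ = _ := by ring

end Pool.Agent.MP_047497_nt
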