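import Pool.Agent.Lib_MP_047497_nt.PartB3
set_option autoImplicit false
open Complex MeasureTheory Set Filter Asymptotics
open scoped Topology
namespace Pool.Agent.MP_047497_nt

/-- symmetry of the Mellin transform of a real function. -/
theorem mellin_conj {g : ℂ → ℂ} (hreal : ∀ x : ℝ, 0 < x → (g x).im = 0) (s : ℂ) :
    mellin (fun x : ℝ => g x) ((starRingEnd ℂ) s) =
      (starRingEnd ℂ) (mellin (fun x : ℝ => g x) s) := by
  unfold mellin
  rw [← integral_conj]
  refine setIntegral_congr_fun measurableSet_Ioi fun x hx => ?_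
  have hx' : 0 < x := hx
  simp only [smul_eq_mul, map_mul]
  have h1 : (starRingEnd ℂ) (g x) = g x := Complex.conj_eq_iff_im.2 (hreal x hx')
  rw [h1]
  congr 1
  have h2 : (starRingEnd ℂ) ((x : ℂ) ^ (s - 1)) = (x : ℂ) ^ ((starRingEnd ℂ) (s - 1)) := by
    have h3 := Complex.cpow_conj (x : ℂ) (s - 1) (by
      rw [Complex.arg_ofReal_of_nonneg hx'.le]
      exact Real.pi_ne_zero.symm)
    rw [Complex.conj_ofReal] at h3
    exact h3.symm
  rw [h2]
  simp

theorem norm_cpow_line {z : ℂ} (hz : z ≠ 0) (σ t : ℝ) :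
    ‖z ^ (-((σ : ℂ) + t * I))‖ = ‖z‖ ^ (-σ) * Real.exp (t * Complex.arg z) := by
  rw [Complex.norm_cpow_of_ne_zero hz]
  have h1 : (-((σ : ℂ) + t * I)).re = -σ := by simp
  have h2 : (-((σ : ℂ) + t * I)).im = -t := by simp
  rw [h1, h2, div_eq_mul_inv, ← Real.exp_neg]
  congr 2; ring

theorem abs_mul_exp_le {η x : ℝ} (hη : 0 < η) : |x| ≤ η⁻¹ * Real.exp (η * |x|) := by
  have h := Real.add_one_le_exp (η * |x|)
  have h1 : η * |x| ≤ Real.exp (η * |x|) := by linarith
  rw [inv_mul_eq_div, le_div_iff₀ hη]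
  linarith

/-- analyticity of the rotated inverse Mellin integral. -/
theorem invMellin_differentiableAt {h : ℝ → ℂ} (hc : Continuous h) {σ : ℝ} (hσ : 0 ≤ σ)
    (hint : ∀ η : ℝ, 0 < η → η ≤ Real.pi / 2 →
      Integrable (fun t => ‖h t‖ * Real.exp ((Real.pi / 2 - η) * |t|)))
    {z₀ : ℂ} (hz₀ : 0 < z₀.re) :
    DifferentiableAt ℂ (fun z : ℂ => ∫ t : ℝ, z ^ (-((σ : ℂ) + t * I)) • h t) z₀ := by
  have hz0 : z₀ ≠ 0 := by
    intro h0; rw [h0] at hz₀; simp at hz₀
  have harg : |Complex.arg z₀| < Real.pi / 2 := Complex.abs_arg_lt_pi_div_two_iff.2 (Or.inl hz₀)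
  -- choose φ₀, η₀
  obtain ⟨φ, hφ1, hφ2⟩ := exists_between harg
  have hφ0 : 0 ≤ φ := (abs_nonneg _).trans hφ1.le
  set η := (Real.pi / 2 - φ) / 2 with hη
  have hη0 : 0 < η := by rw [hη]; linarith
  have hη2 : η ≤ Real.pi / 2 := by
    rw [hη]; linarith
  have hslit : z₀ ∈ Complex.slitPlane := Or.inl hz₀
  -- neighbourhood
  set U : Set ℂ := {z : ℂ | 0 < z.re ∧ |Complex.arg z| < φ ∧ ‖z₀‖ / 2 < ‖z‖} with hU
  have hUn : U ∈ 𝓝 z₀ := by
    have h1 : ∀ᶠ z in 𝓝 z₀, 0 < z.re :=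
      (isOpen_lt continuous_const Complex.continuous_re).mem_nhds hz₀
    have h2 : ∀ᶠ z in 𝓝 z₀, |Complex.arg z| < φ :=
      ((Complex.continuousAt_arg hslit).abs).eventually_lt continuousAt_const hφ1
    have h3 : ∀ᶠ z in 𝓝 z₀, ‖z₀‖ / 2 < ‖z‖ := by
      have : ‖z₀‖ / 2 < ‖z₀‖ := by
        have := norm_pos_iff.2 hz0; linarith
      exact continuousAt_const.eventually_lt (continuous_norm.continuousAt) this
    filter_upwards [h1, h2, h3] with z a b c
    exact ⟨a, b, c⟩
  have hmeas : ∀ z : ℂ, z ≠ 0 → ∀ c : ℂ, Continuous (fun t : ℝ => z ^ (-((σ : ℂ) + t * I) + c)) := by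
    intro z hz c
    have : Continuous (fun t : ℝ => -((σ : ℂ) + t * I) + c) := by fun_prop
    exact continuous_iff_continuousAt.2 fun t =>
      ContinuousAt.const_cpow (this.continuousAt) (Or.inl hz)
  have hmeas0 : ∀ z : ℂ, z ≠ 0 → Continuous (fun t : ℝ => z ^ (-((σ : ℂ) + t * I))) := by
    intro z hz
    have := hmeas z hz 0
    simpa using this
  set bound : ℝ → ℝ := fun t => (‖z₀‖ / 2) ^ (-σ - 1) * (σ + η⁻¹) *
    (‖h t‖ * Real.exp ((Real.pi / 2 - η) * |t|)) with hbound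
  have hn0 : 0 < ‖z₀‖ / 2 := by have := norm_pos_iff.2 hz0; linarith
  have main := hasDerivAt_integral_of_dominated_loc_of_deriv_le (μ := (volume : Measure ℝ))
    (F := fun (z : ℂ) (t : ℝ) => z ^ (-((σ : ℂ) + t * I)) • h t)
    (F' := fun (z : ℂ) (t : ℝ) => (-((σ : ℂ) + t * I) * z ^ (-((σ : ℂ) + t * I) - 1)) • h t)
    (x₀ := z₀) (s := U) (bound := bound) hUn ?_ ?_ ?_ ?_ ?_ ?_
  · exact main.2.differentiableAt
  · filter_upwards [hUn] with z hz
    have hz0' : z ≠ 0 := by
      intro h0; rw [h0] at hz; simpa using hz.1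
    exact ((hmeas0 z hz0').smul hc).aestronglyMeasurable
  · -- integrable at z₀
    refine Integrable.mono' ((hint η hη0 hη2).const_mul (‖z₀‖ ^ (-σ)))
      ((hmeas0 z₀ hz0).smul hc).aestronglyMeasurable ?_
    refine Eventually.of_forall fun t => ?_
    rw [norm_smul, norm_cpow_line hz0, mul_assoc]
    apply mul_le_mul_of_nonneg_left _ (by positivity)
    rw [mul_comm]
    apply mul_le_mul_of_nonneg_left _ (norm_nonneg _)
    apply Real.exp_le_exp.2
    calc t * Complex.arg z₀ ≤ |t * Complex.arg z₀| := le_abs_self _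
      _ = |Complex.arg z₀| * |t| := by rw [abs_mul, mul_comm]
      _ ≤ (Real.pi / 2 - η) * |t| := by
        apply mul_le_mul_of_nonneg_right _ (abs_nonneg _)
        rw [hη]; linarith
  · have h1 := hmeas z₀ hz0 (-1)
    have h2 : Continuous fun t : ℝ => (-((σ : ℂ) + t * I) * z₀ ^ (-((σ : ℂ) + t * I) - 1)) • h t := by
      simp_rw [← sub_eq_add_neg] at h1
      exact ((by fun_prop : Continuous fun t : ℝ => -((σ : ℂ) + t * I)).mul h1).smul hc
    exact h2.aestronglyMeasurable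
  · -- bound
    refine Eventually.of_forall fun t z hz => ?_
    obtain ⟨hzre, hzarg, hznorm⟩ := hz
    have hz0' : z ≠ 0 := by
      intro h0; rw [h0] at hzre; simp at hzre
    have hsplit : z ^ (-((σ : ℂ) + t * I) - 1) = z ^ (-((σ : ℂ) + t * I)) / z := by
      rw [Complex.cpow_sub _ _ hz0', Complex.cpow_one]
    have hn : 0 < ‖z‖ := norm_pos_iff.2 hz0'
    rw [norm_smul, norm_mul, hsplit, norm_div, norm_cpow_line hz0']
    have h1 : ‖-((σ : ℂ) + t * I)‖ ≤ σ + |t| := by
      rw [norm_neg]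
      calc ‖(σ : ℂ) + t * I‖ ≤ ‖(σ : ℂ)‖ + ‖(t : ℂ) * I‖ := norm_add_le _ _
        _ = σ + |t| := by
          rw [norm_mul, Complex.norm_I, mul_one, Complex.norm_real, Complex.norm_real,
            Real.norm_eq_abs, Real.norm_eq_abs, abs_of_nonneg hσ]
    have h2 : σ + |t| ≤ (σ + η⁻¹) * Real.exp (η * |t|) := by
      have a1 := abs_mul_exp_le (x := t) hη0
      have a2 : 1 ≤ Real.exp (η * |t|) := Real.one_le_exp (by positivity)
      nlinarith
    have h3 : ‖z‖ ^ (-σ) / ‖z‖ ≤ (‖z₀‖ / 2) ^ (-σ - 1) := by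
      rw [Real.rpow_sub hn0, Real.rpow_one]
      apply div_le_div₀ (by positivity) _ hn0 hznorm.le
      exact Real.rpow_le_rpow_of_nonpos hn0 hznorm.le (by linarith)
    have h4 : Real.exp (t * Complex.arg z) ≤ Real.exp (φ * |t|) := by
      apply Real.exp_le_exp.2
      calc t * Complex.arg z ≤ |t * Complex.arg z| := le_abs_self _
        _ = |Complex.arg z| * |t| := by rw [abs_mul, mul_comm]
        _ ≤ φ * |t| := mul_le_mul_of_nonneg_right hzarg.le (abs_nonneg _)
    have h5 : Real.exp (η * |t|) * Real.exp (φ * |t|) = Real.exp ((Real.pi / 2 - η) * |t|) := by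
      rw [← Real.exp_add]; congr 1; rw [hη]; ring
    calc ‖-((σ : ℂ) + t * I)‖ * (‖z‖ ^ (-σ) * Real.exp (t * Complex.arg z) / ‖z‖) * ‖h t‖
        = ‖-((σ : ℂ) + t * I)‖ * ((‖z‖ ^ (-σ) / ‖z‖) * Real.exp (t * Complex.arg z)) * ‖h t‖ := by
          ring
      _ ≤ ((σ + η⁻¹) * Real.exp (η * |t|)) * (((‖z₀‖ / 2) ^ (-σ - 1)) * Real.exp (φ * |t|)) *
          ‖h t‖ := by
          apply mul_le_mul_of_nonneg_right _ (norm_nonneg _)
          apply mul_le_mul (h1.trans h2) _ (by positivity) (by positivity)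
          exact mul_le_mul h3 h4 (Real.exp_pos _).le (by positivity)
      _ = (‖z₀‖ / 2) ^ (-σ - 1) * (σ + η⁻¹) * (‖h t‖ * (Real.exp (η * |t|) *
            Real.exp (φ * |t|))) := by ring
      _ = bound t := by rw [h5]
  · exact (hint η hη0 hη2).const_mul _
  · refine Eventually.of_forall fun t z hz => ?_
    have hslit' : z ∈ Complex.slitPlane := Or.inl hz.1
    have h1 : HasDerivAt (fun z : ℂ => z ^ (-((σ : ℂ) + t * I)))
        (-((σ : ℂ) + t * I) * z ^ (-((σ : ℂ) + t * I) - 1)) z := by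
      have := (hasDerivAt_id z).cpow_const (c := -((σ : ℂ) + t * I)) hslit'
      simpa using this
    exact h1.smul_const (h t)

theorem rotated_bound {g Z : ℂ → ℂ} (hg : DifferentiableOn ℂ g {z : ℂ | 0 < z.re})
    (hreal : ∀ x : ℝ, 0 < x → (g x).im = 0) {σ : ℝ} (hσ : 1 ≤ σ)
    (hmc : MellinConvergent (fun x : ℝ => g x) σ)
    (hmel : ∀ t : ℝ, mellin (fun x : ℝ => g x) (σ + t * I) =
      Complex.Gamma (σ + t * I) * Z (σ + t * I))
    (hZc : Continuous fun t : ℝ => Z (σ + t * I))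
    {k : ℕ} (hk : 1 ≤ k) {ε : ℝ} (hε : 0 < ε)
    (hmom : (fun T : ℝ => ∫ t in (1:ℝ)..T, ‖Z (σ + t * I)‖ ^ (2 * k)) =O[atTop]
      fun T : ℝ => T ^ (1 + ε)) :
    ∃ K : ℝ, ∀ z : ℂ, 0 < z.re → 0 < z.im →
      ‖g z‖ ≤ K * ‖z‖ ^ (-σ) * (‖z‖ / z.re) ^ (σ + 1 / 2 + ε / (2 * k)) := by
  obtain ⟨C, hC, hΓ⟩ := norm_Gamma_le hσ
  set h : ℝ → ℂ := fun t => Complex.Gamma (σ + t * I) * Z (σ + t * I) with hh
  have hΓc : Continuous fun t : ℝ => Complex.Gamma (σ + t * I) := by
    rw [continuous_iff_continuousAt]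
    intro t
    have hd : DifferentiableAt ℂ Complex.Gamma ((σ : ℂ) + t * I) := by
      apply Complex.differentiableAt_Gamma
      intro m h0
      have := congrArg Complex.re h0
      simp at this
      have h1 : (0 : ℝ) ≤ m := Nat.cast_nonneg m
      linarith
    exact ContinuousAt.comp (f := fun t : ℝ => (σ : ℂ) + t * I) hd.continuousAt (by fun_prop)
  have hhc : Continuous h := hΓc.mul hZc
  have hev : ∀ t : ℝ, ‖h (-t)‖ = ‖h t‖ := by
    intro t
    have e1 : ((σ : ℂ) + ((-t : ℝ) : ℂ) * I) = (starRingEnd ℂ) ((σ : ℂ) + t * I) := by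
      simp
    simp only [hh]
    rw [← hmel (-t), e1, mellin_conj hreal, Complex.norm_conj, hmel t]
  have hHu : ∀ t, ‖h t‖ ≤ C * (1 + |t|) ^ (σ - 1 / 2) * Real.exp (-(Real.pi / 2 * |t|)) *
      ‖Z (σ + t * I)‖ := by
    intro t
    simp only [hh]
    rw [norm_mul]
    exact mul_le_mul_of_nonneg_right (hΓ t) (norm_nonneg _)
  obtain ⟨K, hK, hKI⟩ := exp_integrable hhc.norm (fun t => norm_nonneg _) hev hZc.norm
    (fun t => norm_nonneg _) hσ hC hHu hk hε hmom
  -- the rotated inverse Mellin transform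
  set R : ℂ → ℂ := fun z => (1 / (2 * Real.pi) : ℝ) • ∫ t : ℝ, z ^ (-((σ : ℂ) + t * I)) • h t with hR
  have hRd : DifferentiableOn ℂ R {z : ℂ | 0 < z.re} := by
    intro z hz
    have := invMellin_differentiableAt hhc (by linarith : 0 ≤ σ)
      (fun η h1 h2 => (hKI η h1 h2).1) hz
    exact (this.const_smul (1 / (2 * Real.pi) : ℝ)).differentiableWithinAt
  have hopen : IsOpen {z : ℂ | 0 < z.re} := isOpen_lt continuous_const Complex.continuous_re
  have hconv : Convex ℝ {z : ℂ | 0 < z.re} := convex_halfSpace_re_gt 0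
  have hRg : ∀ x : ℝ, 0 < x → R x = g x := by
    intro x hx
    have hVI : VerticalIntegrable (mellin (fun x : ℝ => g x)) σ := by
      unfold VerticalIntegrable
      have h1 := (hKI (Real.pi / 2) (by positivity) le_rfl).1
      simp only [sub_self, zero_mul, Real.exp_zero, mul_one] at h1
      have h2 : Integrable h := (integrable_norm_iff hhc.aestronglyMeasurable).1 h1
      refine h2.congr (Eventually.of_forall fun t => ?_)
      simp only [hh]
      rw [hmel t]
    have hcont : ContinuousAt (fun x : ℝ => g x) x := by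
      have h1 : ContinuousAt g (x : ℂ) :=
        (hg.differentiableAt (hopen.mem_nhds (by simpa using hx))).continuousAt
      exact ContinuousAt.comp (f := fun x : ℝ => (x : ℂ)) h1 (by fun_prop)
    have h3 := mellinInv_mellin_eq σ (fun x : ℝ => g x) hx hmc hVI hcont
    rw [← h3]
    simp only [hR, mellinInv, hh]
    congr 1
    congr 1
    ext t
    rw [hmel t]
  have hEq : EqOn R g {z : ℂ | 0 < z.re} := by
    have hRa : AnalyticOnNhd ℂ R {z : ℂ | 0 < z.re} := hRd.analyticOnNhd hopen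
    have hga : AnalyticOnNhd ℂ g {z : ℂ | 0 < z.re} := hg.analyticOnNhd hopen
    refine hRa.eqOn_of_preconnected_of_frequently_eq hga hconv.isPreconnected
      (z₀ := (1 : ℂ)) (by simp) ?_
    -- the points 1 + 1/(n+1)
    have hlim : Tendsto (fun n : ℕ => ((1 + 1 / ((n : ℝ) + 1) : ℝ) : ℂ)) atTop (𝓝[≠] (1 : ℂ)) := by
      rw [tendsto_nhdsWithin_iff]
      constructor
      · have h1 : Tendsto (fun n : ℕ => (1 + 1 / ((n : ℝ) + 1) : ℝ)) atTop (𝓝 (1 + 0)) :=
          tendsto_const_nhds.add tendsto_one_div_add_atTop_nhds_zero_nat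
        rw [add_zero] at h1
        have h2 := (Complex.continuous_ofReal.tendsto 1).comp h1
        rw [Complex.ofReal_one] at h2
        exact h2
      · refine Eventually.of_forall fun n => ?_
        simp only [mem_compl_iff, mem_singleton_iff]
        intro h0
        have h1 : (1 + 1 / ((n : ℝ) + 1) : ℝ) = 1 := by exact_mod_cast h0
        have h2 : 0 < 1 / ((n : ℝ) + 1) := by positivity
        linarith
    refine hlim.frequently (Frequently.of_forall fun n => ?_)
    exact hRg _ (by positivity)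
  refine ⟨(1 / (2 * Real.pi)) * K, fun z hz1 hz2 => ?_⟩
  have hz0 : z ≠ 0 := by
    intro h0; rw [h0] at hz1; simp at hz1
  have hn : 0 < ‖z‖ := norm_pos_iff.2 hz0
  have harg0 : 0 < Complex.arg z := by
    have h1 : 0 ≤ Complex.arg z := Complex.arg_nonneg_iff.2 hz2.le
    rcases h1.lt_or_eq with h2 | h2
    · exact h2
    · exfalso
      have := Complex.arg_eq_zero_iff.1 h2.symm
      linarith [this.2]
  have harg1 : Complex.arg z < Real.pi / 2 := by
    have := Complex.abs_arg_lt_pi_div_two_iff.2 (Or.inl hz1)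
    exact (le_abs_self _).trans_lt this
  set η := Real.pi / 2 - Complex.arg z with hη
  have hη0 : 0 < η := by rw [hη]; linarith
  have hη2 : η ≤ Real.pi / 2 := by rw [hη]; linarith
  obtain ⟨hI, hIb⟩ := hKI η hη0 hη2
  have e1 : Real.pi / 2 - η = Complex.arg z := by rw [hη]; ring
  rw [e1] at hI hIb
  have hgR : g z = R z := (hEq hz1).symm
  have h1 : ‖∫ t : ℝ, z ^ (-((σ : ℂ) + t * I)) • h t‖ ≤
      ‖z‖ ^ (-σ) * ∫ t : ℝ, ‖h t‖ * Real.exp (Complex.arg z * |t|) := by
    rw [← integral_const_mul]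
    apply norm_integral_le_of_norm_le (hI.const_mul _)
    refine Eventually.of_forall fun t => ?_
    rw [norm_smul, norm_cpow_line hz0, mul_assoc]
    apply mul_le_mul_of_nonneg_left _ (by positivity)
    rw [mul_comm]
    apply mul_le_mul_of_nonneg_left _ (norm_nonneg _)
    apply Real.exp_le_exp.2
    calc t * Complex.arg z ≤ |t * Complex.arg z| := le_abs_self _
      _ = Complex.arg z * |t| := by rw [abs_mul, mul_comm, abs_of_pos harg0]
  have hsin : z.re / ‖z‖ ≤ η := by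
    rw [← Complex.cos_arg hz0]
    have : Real.cos (Complex.arg z) = Real.sin η := by
      rw [hη, Real.sin_pi_div_two_sub]
    rw [this]
    exact Real.sin_le hη0.le
  have ha0 : 0 ≤ σ + 1 / 2 + ε / (2 * k) := by positivity
  have h2 : η ^ (-(σ + 1 / 2 + ε / (2 * k))) ≤ (‖z‖ / z.re) ^ (σ + 1 / 2 + ε / (2 * k)) := by
    rw [Real.rpow_neg hη0.le, ← Real.inv_rpow hη0.le]
    apply Real.rpow_le_rpow (by positivity) _ ha0
    rw [← inv_div z.re ‖z‖]
    exact inv_anti₀ (by positivity) hsin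
  rw [hgR]
  simp only [hR]
  rw [norm_smul, Real.norm_eq_abs, abs_of_pos (by positivity)]
  calc 1 / (2 * Real.pi) * ‖∫ t : ℝ, z ^ (-((σ : ℂ) + t * I)) • h t‖
      ≤ 1 / (2 * Real.pi) * (‖z‖ ^ (-σ) *
          (K * (‖z‖ / z.re) ^ (σ + 1 / 2 + ε / (2 * k)))) := by
        apply mul_le_mul_of_nonneg_left _ (by positivity)
        refine h1.trans ?_
        apply mul_le_mul_of_nonneg_left _ (by positivity)
        exact hIb.trans (mul_le_mul_of_nonneg_left h2 hK)
    _ = _ := by ring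

end Pool.Agent.MP_047497_nt
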