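import Mathlib
import Pool.Agent.Lib_MP_047497_nt.Defs

set_option autoImplicit false

open Complex MeasureTheory Set Filter Asymptotics
open scoped Topology

namespace Pool.Agent.MP_047497_nt

theorem finrank_pow_liouville {r : ℕ} {L : ℝ} (hL : Liouville L) :
    Module.finrank ℚ (Submodule.span ℚ (Set.range fun i : Fin r => L ^ (i : ℕ))) = r := by
  have htr : Transcendental ℚ L := by
    have h := hL.transcendental
    intro halg
    exact h ((IsFractionRing.isAlgebraic_iff ℤ ℚ ℝ).mpr halg)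
  have hinj := transcendental_iff_injective.mp htr
  have hli : LinearIndependent ℚ (fun n : ℕ => L ^ n) := by
    have h1 := (Polynomial.basisMonomials ℚ).linearIndependent
    have h2 := h1.map' (Polynomial.aeval L).toLinearMap (LinearMap.ker_eq_bot.mpr hinj)
    have h3 : (⇑(Polynomial.aeval (R := ℚ) L).toLinearMap ∘ ⇑(Polynomial.basisMonomials ℚ))
        = fun n : ℕ => L ^ n := by
      funext n
      simp
    rwa [h3] at h2
  have hli' : LinearIndependent ℚ (fun i : Fin r => L ^ (i : ℕ)) :=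
    hli.comp (fun i : Fin r => (i : ℕ)) Fin.val_injective
  rw [finrank_span_eq_card hli', Fintype.card_fin]

theorem subF_differentiableOn (r : ℕ) (a : ℝ) (w : Fin r → ℝ) (hw : ∀ i, 0 < w i) :
    DifferentiableOn ℂ (subF r a w) {z : ℂ | 0 < z.re} := by
  intro z hz
  have hz' : 0 < z.re := hz
  have hz0 : z ≠ 0 := by
    rintro rfl
    simp at hz'
  apply DifferentiableAt.differentiableWithinAt
  unfold subF genF
  have h1 : ∀ i, (1 : ℂ) - Complex.exp (-(w i * z)) ≠ 0 := by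
    intro i h
    have h2 : ‖Complex.exp (-(w i * z))‖ < 1 := by
      rw [Complex.norm_exp]
      rw [Real.exp_lt_one_iff]
      simp only [neg_re, mul_re, ofReal_re, ofReal_im, zero_mul, sub_zero]
      have := mul_pos (hw i) hz'
      linarith
    have h3 : Complex.exp (-(w i * z)) = 1 := (sub_eq_zero.mp h).symm
    rw [h3] at h2
    simp at h2
  have h4 : (∏ i, (w i : ℂ)) * z ^ r ≠ 0 := by
    apply mul_ne_zero
    · rw [Finset.prod_ne_zero_iff]
      intro i _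
      exact_mod_cast (hw i).ne'
    · exact pow_ne_zero _ hz0
  apply DifferentiableAt.sub
  · apply DifferentiableAt.mul
    · fun_prop
    · apply DifferentiableAt.fun_finsetProd
      intro i _
      apply DifferentiableAt.inv
      · fun_prop
      · exact h1 i
  · apply DifferentiableAt.inv
    · fun_prop
    · exact h4

theorem subF_ofReal_im (r : ℕ) (a : ℝ) (w : Fin r → ℝ) (x : ℝ) :
    (subF r a w (x : ℂ)).im = 0 := by
  have h : subF r a w (x : ℂ) = ((Real.exp (-(a * x)) * ∏ i, (1 - Real.exp (-(w i * x)))⁻¹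
      - ((∏ i, w i) * x ^ r)⁻¹ : ℝ) : ℂ) := by
    unfold subF genF
    push_cast
    rfl
  rw [h]
  exact Complex.ofReal_im _

/-- Key estimate: for a good denominator `b` the product in `genF` is large. -/
theorem key_lower {r : ℕ} (hr : 1 ≤ r) {a : ℝ} (ha : 0 < a) {L : ℝ}
    (hpos : 0 < L) {C1 : ℝ} (hC1 : C1 = (L + 1) ^ (r - 1) * (1 + 2 * Real.pi * (r - 1 : ℕ)))
    {m : ℕ} {A b : ℤ} (hb : 1 < b) (happ : |L - A / b| < 1 / (b : ℝ) ^ (r - 1 + m))
    {δ : ℝ} (hδ : δ = 1 / (b : ℝ) ^ m) (hsmall : C1 * δ ≤ 1)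
    {z : ℂ} (hz : z = δ + 2 * Real.pi * ((b : ℝ) ^ (r - 1) : ℝ) * I) :
    Real.exp (-a) * ((2 * C1 * δ) ^ r)⁻¹ ≤ ‖genF r a (fun i : Fin r => L ^ (i : ℕ)) z‖ := by
  have hb' : (1 : ℝ) < b := by exact_mod_cast hb
  have hb0 : (0 : ℝ) < b := by linarith
  have hδ0 : 0 < δ := by rw [hδ]; positivity
  have hδ1 : δ ≤ 1 := by
    rw [hδ]
    rw [div_le_one (by positivity)]
    exact one_le_pow₀ hb'.le
  have hC10 : 0 < C1 := by rw [hC1]; positivity
  -- each factor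
  have hfac : ∀ i : Fin r, ‖(1 : ℂ) - Complex.exp (-((L ^ (i : ℕ) : ℝ) * z))‖ ≤ 2 * C1 * δ := by
    intro i
    set P := r - 1 with hP
    have hiP : (i : ℕ) ≤ P := by omega
    set u : ℤ := A ^ (i : ℕ) * b ^ (P - i) with hu
    -- difference
    have hdiff : |L ^ (i : ℕ) * (b : ℝ) ^ P - u| ≤ P * (L + 1) ^ P * δ := by
      have h1 : (u : ℝ) = ((A : ℝ) / b) ^ (i : ℕ) * (b : ℝ) ^ P := by
        rw [hu]
        push_cast
        rw [div_pow]
        have : (b : ℝ) ^ P = (b : ℝ) ^ (i : ℕ) * (b : ℝ) ^ (P - i) := by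
          rw [← pow_add]
          congr 1
          omega
        rw [this]
        field_simp
      rw [h1, ← sub_mul, abs_mul, abs_of_pos (by positivity : (0 : ℝ) < (b : ℝ) ^ P)]
      have h2 := abs_pow_sub_pow_le L ((A : ℝ) / b) (i : ℕ)
      have h3 : |L - (A : ℝ) / b| ≤ 1 / (b : ℝ) ^ (P + m) := happ.le
      have h3' : |L - (A : ℝ) / b| ≤ 1 := by
        refine h3.trans ?_
        rw [div_le_one (by positivity)]
        exact one_le_pow₀ hb'.le
      have h4 : max |L| |(A : ℝ) / b| ≤ L + 1 := by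
        apply max_le
        · rw [abs_of_pos hpos]; linarith
        · have := abs_sub_abs_le_abs_sub ((A : ℝ) / b) L
          rw [abs_sub_comm] at this
          rw [abs_of_pos hpos] at this
          linarith
      have h5 : max |L| |(A : ℝ) / b| ^ ((i : ℕ) - 1) ≤ (L + 1) ^ P := by
        calc max |L| |(A : ℝ) / b| ^ ((i : ℕ) - 1) ≤ (L + 1) ^ ((i : ℕ) - 1) := by
              apply pow_le_pow_left₀ _ h4
              exact le_max_of_le_left (abs_nonneg _)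
          _ ≤ (L + 1) ^ P := pow_le_pow_right₀ (by linarith) (by omega)
      have h6 : |L ^ (i : ℕ) - ((A : ℝ) / b) ^ (i : ℕ)| ≤ 1 / (b : ℝ) ^ (P + m) * P * (L + 1) ^ P := by
        refine h2.trans ?_
        have hiP' : ((i : ℕ) : ℝ) ≤ P := by exact_mod_cast hiP
        have : 0 ≤ max |L| |(A : ℝ) / b| ^ ((i : ℕ) - 1) := by positivity
        gcongr
      calc |L ^ (i : ℕ) - ((A : ℝ) / b) ^ (i : ℕ)| * (b : ℝ) ^ P
          ≤ (1 / (b : ℝ) ^ (P + m) * P * (L + 1) ^ P) * (b : ℝ) ^ P := by gcongr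
        _ = P * (L + 1) ^ P * δ := by
            rw [hδ, pow_add]
            field_simp
    -- rewrite the exponential
    set ζ : ℂ := -(((L ^ (i : ℕ) * δ : ℝ) : ℂ) +
      2 * Real.pi * ((L ^ (i : ℕ) * (b : ℝ) ^ P - u : ℝ) : ℂ) * I) with hζ
    have hexp : Complex.exp (-((L ^ (i : ℕ) : ℝ) * z)) = Complex.exp ζ := by
      rw [Complex.exp_eq_exp_iff_exists_int]
      refine ⟨-u, ?_⟩
      rw [hz, hζ]
      push_cast
      ring
    have hζn : ‖ζ‖ ≤ C1 * δ := by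
      rw [hζ, norm_neg]
      refine (norm_add_le _ _).trans ?_
      rw [norm_mul, norm_mul, norm_mul, Complex.norm_I, mul_one, Complex.norm_real,
        Complex.norm_real, Complex.norm_real, Real.norm_eq_abs, Real.norm_eq_abs,
        Real.norm_eq_abs, abs_of_pos Real.pi_pos]
      have h7 : |L ^ (i : ℕ) * δ| ≤ (L + 1) ^ P * δ := by
        rw [abs_of_nonneg (by positivity)]
        have : L ^ (i : ℕ) ≤ (L + 1) ^ P :=
          calc L ^ (i : ℕ) ≤ (L + 1) ^ (i : ℕ) := pow_le_pow_left₀ hpos.le (by linarith) _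
            _ ≤ (L + 1) ^ P := pow_le_pow_right₀ (by linarith) hiP
        gcongr
      have h8 : ‖(2 : ℂ)‖ = 2 := by simp
      rw [h8]
      have h9 : 2 * Real.pi * |L ^ (i : ℕ) * (b : ℝ) ^ P - u| ≤
          2 * Real.pi * (P * (L + 1) ^ P * δ) := by
        have := Real.pi_pos
        gcongr
      calc |L ^ (i : ℕ) * δ| + 2 * Real.pi * |L ^ (i : ℕ) * (b : ℝ) ^ P - u|
          ≤ (L + 1) ^ P * δ + 2 * Real.pi * (P * (L + 1) ^ P * δ) := add_le_add h7 h9
        _ = C1 * δ := by rw [hC1]; ring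
    rw [hexp, norm_sub_rev]
    calc ‖Complex.exp ζ - 1‖ ≤ 2 * ‖ζ‖ := Complex.norm_exp_sub_one_le (hζn.trans hsmall)
      _ ≤ 2 * (C1 * δ) := by gcongr
      _ = 2 * C1 * δ := by ring
  unfold genF
  rw [norm_mul, norm_prod]
  have hzre : z.re = δ := by
    rw [hz]
    have h11 : ((δ : ℂ) + 2 * Real.pi * ((b : ℝ) ^ (r - 1) : ℝ) * I)
        = (δ : ℂ) + ((2 * Real.pi * (b : ℝ) ^ (r - 1) : ℝ) : ℂ) * I := by
      push_cast
      ring
    rw [h11, add_re, mul_re, ofReal_re, ofReal_im, I_re, I_im, ofReal_re]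
    ring
  have hexpa : Real.exp (-a) ≤ ‖Complex.exp (-(a * z))‖ := by
    rw [Complex.norm_exp]
    apply Real.exp_le_exp.mpr
    simp only [neg_re, mul_re, ofReal_re, ofReal_im, zero_mul, sub_zero, hzre]
    nlinarith
  have hprod : ((2 * C1 * δ) ^ r)⁻¹ ≤
      ∏ i : Fin r, ‖((1 : ℂ) - Complex.exp (-((L ^ (i : ℕ) : ℝ) * z)))⁻¹‖ := by
    have h10 : ((2 * C1 * δ) ^ r)⁻¹ = ∏ _i : Fin r, (2 * C1 * δ)⁻¹ := by
      rw [Finset.prod_const, Finset.card_univ, Fintype.card_fin, inv_pow]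
    rw [h10]
    apply Finset.prod_le_prod
    · intro i _
      positivity
    · intro i _
      rw [norm_inv]
      apply inv_anti₀ _ (hfac i)
      rw [norm_pos_iff]
      intro h
      have h2 : ‖Complex.exp (-((L ^ (i : ℕ) : ℝ) * z))‖ < 1 := by
        rw [Complex.norm_exp]
        rw [Real.exp_lt_one_iff]
        simp only [neg_re, mul_re, ofReal_re, ofReal_im, zero_mul, sub_zero, hzre]
        have : 0 < L ^ (i : ℕ) * δ := by positivity
        linarith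
      have h3 : Complex.exp (-((L ^ (i : ℕ) : ℝ) * z)) = 1 := (sub_eq_zero.mp h).symm
      rw [h3] at h2
      simp at h2
  exact mul_le_mul hexpa hprod (by positivity) (by positivity)


set_option maxHeartbeats 1000000 in
theorem no_bound_of_liouville {r : ℕ} (hr : 1 ≤ r) {a : ℝ} (ha : 0 < a) {L : ℝ}
    (hL : Liouville L) (hpos : 0 < L) {σ β : ℝ} (hσ : 0 < σ) (hβ : β < r)
    (h : ∃ K : ℝ, ∀ z : ℂ, 0 < z.re → 0 < z.im →
      ‖subF r a (fun i : Fin r => L ^ (i : ℕ)) z‖ ≤ K * ‖z‖ ^ (-σ) * (‖z‖ / z.re) ^ β) :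
    False := by
  obtain ⟨K, hK⟩ := h
  set P := r - 1 with hP
  set β' := max β 0 with hβ'
  have hβ'0 : 0 ≤ β' := le_max_right _ _
  have hββ' : β ≤ β' := le_max_left _ _
  have hr0 : (0 : ℝ) < r := by exact_mod_cast hr
  have hβ'r : β' < r := max_lt hβ hr0
  set C1 : ℝ := (L + 1) ^ P * (1 + 2 * Real.pi * (P : ℕ)) with hC1
  have hC10 : 0 < C1 := by rw [hC1]; positivity
  set D : ℝ := (∏ i : Fin r, L ^ (i : ℕ))⁻¹ with hD
  have hD0 : 0 < D := by rw [hD]; positivity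
  set C : ℝ := (D + |K| * 8 ^ β') * (2 * C1) ^ r * Real.exp a with hC
  -- choose m
  obtain ⟨m, hm1, hm2, hm3⟩ : ∃ m : ℕ, C1 ≤ 2 ^ m ∧ 0 ≤ (m : ℝ) * (r - β') - P * β' ∧
      C < (2 : ℝ) ^ ((m : ℝ) * (r - β') - P * β') := by
    have t1 : Tendsto (fun m : ℕ => (2 : ℝ) ^ m) atTop atTop :=
      tendsto_pow_atTop_atTop_of_one_lt one_lt_two
    have t2 : Tendsto (fun m : ℕ => (m : ℝ) * (r - β') - P * β') atTop atTop := by
      apply tendsto_atTop_add_const_right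
      exact Tendsto.atTop_mul_const (by linarith) tendsto_natCast_atTop_atTop
    have t3 : Tendsto (fun m : ℕ => (2 : ℝ) ^ ((m : ℝ) * (r - β') - P * β')) atTop atTop :=
      (tendsto_rpow_atTop_of_base_gt_one 2 one_lt_two).comp t2
    exact ((t1.eventually_ge_atTop C1).and ((t2.eventually_ge_atTop 0).and
      (t3.eventually_gt_atTop C))).exists
  obtain ⟨A, b, hb, -, happ⟩ := hL (P + m)
  have hb' : (1 : ℝ) < b := by exact_mod_cast hb
  have hb2 : (2 : ℝ) ≤ b := by exact_mod_cast (by omega : (2 : ℤ) ≤ b)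
  have hb0 : (0 : ℝ) < b := by linarith
  set δ : ℝ := 1 / (b : ℝ) ^ m with hδ
  have hδ0 : 0 < δ := by positivity
  have hbm1 : 1 ≤ (b : ℝ) ^ m := one_le_pow₀ hb'.le
  have hbP1 : 1 ≤ (b : ℝ) ^ P := one_le_pow₀ hb'.le
  have hδ1 : δ ≤ 1 := by
    rw [hδ, div_le_one (by positivity)]
    exact hbm1
  have hsmall : C1 * δ ≤ 1 := by
    rw [hδ, mul_one_div, div_le_one (by positivity)]
    exact hm1.trans (pow_le_pow_left₀ (by norm_num) hb2 m)
  set z : ℂ := δ + 2 * Real.pi * ((b : ℝ) ^ P : ℝ) * I with hz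
  have hlow := key_lower hr ha hpos hC1 hb happ hδ hsmall hz
  have hz' : z = (δ : ℂ) + ((2 * Real.pi * (b : ℝ) ^ P : ℝ) : ℂ) * I := by
    rw [hz]
    push_cast
    ring
  have hzre : z.re = δ := by
    rw [hz', add_re, mul_re, ofReal_re, ofReal_im, I_re, I_im, ofReal_re]
    ring
  have hzim : z.im = 2 * Real.pi * (b : ℝ) ^ P := by
    rw [hz', add_im, mul_im, ofReal_re, ofReal_im, I_re, I_im, ofReal_im]
    ring
  have hpi := Real.pi_gt_three
  have hpi' := Real.pi_lt_d2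
  have hznorm1 : 1 ≤ ‖z‖ := by
    have h1 : |z.im| ≤ ‖z‖ := Complex.abs_im_le_norm z
    rw [hzim, abs_of_pos (by positivity)] at h1
    nlinarith
  have hznorm2 : ‖z‖ ≤ 8 * (b : ℝ) ^ P := by
    have h1 := Complex.norm_le_abs_re_add_abs_im z
    rw [hzre, hzim, abs_of_pos hδ0, abs_of_pos (by positivity)] at h1
    nlinarith
  have hK' := hK z (by rw [hzre]; exact hδ0) (by rw [hzim]; positivity)
  rw [hzre] at hK'
  -- upper bound of the right-hand side
  have hbase1 : 1 ≤ ‖z‖ / δ := by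
    rw [le_div_iff₀ hδ0]
    linarith
  have hbase2 : ‖z‖ / δ ≤ 8 * (b : ℝ) ^ (P + m) := by
    rw [div_le_iff₀ hδ0, hδ]
    have : 8 * (b : ℝ) ^ (P + m) * (1 / (b : ℝ) ^ m) = 8 * (b : ℝ) ^ P := by
      rw [pow_add]
      field_simp
    rw [this]
    exact hznorm2
  have hup1 : ‖z‖ ^ (-σ) ≤ 1 := Real.rpow_le_one_of_one_le_of_nonpos hznorm1 (by linarith)
  have hup2 : (‖z‖ / δ) ^ β ≤ (8 * (b : ℝ) ^ (P + m)) ^ β' :=
    (Real.rpow_le_rpow_of_exponent_le hbase1 hββ').trans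
      (Real.rpow_le_rpow (by linarith) hbase2 hβ'0)
  have hup3 : K * ‖z‖ ^ (-σ) * (‖z‖ / δ) ^ β ≤ |K| * (8 ^ β' * ((b : ℝ) ^ (P + m)) ^ β') := by
    have h1 : 0 ≤ ‖z‖ ^ (-σ) := Real.rpow_nonneg (norm_nonneg _) _
    have h2 : 0 ≤ (‖z‖ / δ) ^ β := Real.rpow_nonneg (by linarith) _
    calc K * ‖z‖ ^ (-σ) * (‖z‖ / δ) ^ β ≤ |K| * ‖z‖ ^ (-σ) * (‖z‖ / δ) ^ β := by
          gcongr
          exact le_abs_self K
      _ ≤ |K| * 1 * (8 * (b : ℝ) ^ (P + m)) ^ β' := by gcongr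
      _ = |K| * (8 ^ β' * ((b : ℝ) ^ (P + m)) ^ β') := by
          rw [mul_one, Real.mul_rpow (by norm_num) (by positivity)]
  -- polar term
  have hpol : ‖((∏ i : Fin r, ((L ^ (i : ℕ) : ℝ) : ℂ)) * z ^ r)⁻¹‖ ≤ D := by
    rw [norm_inv, norm_mul, norm_prod, norm_pow, hD]
    have h1 : ∏ i : Fin r, ‖((L ^ (i : ℕ) : ℝ) : ℂ)‖ = ∏ i : Fin r, L ^ (i : ℕ) := by
      apply Finset.prod_congr rfl
      intro i _
      rw [Complex.norm_real, Real.norm_eq_abs, abs_of_pos (by positivity)]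
    rw [h1]
    apply inv_anti₀ (by positivity)
    have h2 : 1 ≤ ‖z‖ ^ r := one_le_pow₀ hznorm1
    have h3 : 0 < ∏ i : Fin r, L ^ (i : ℕ) := by positivity
    exact le_mul_of_one_le_right h3.le h2
  have hsub : ‖genF r a (fun i : Fin r => L ^ (i : ℕ)) z‖ ≤
      ‖subF r a (fun i : Fin r => L ^ (i : ℕ)) z‖ + D := by
    have h1 : genF r a (fun i : Fin r => L ^ (i : ℕ)) z =
        subF r a (fun i : Fin r => L ^ (i : ℕ)) z +
          ((∏ i : Fin r, ((L ^ (i : ℕ) : ℝ) : ℂ)) * z ^ r)⁻¹ := by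
      unfold subF
      ring
    rw [h1]
    exact (norm_add_le _ _).trans (by gcongr)
  have hmain : Real.exp (-a) * ((2 * C1 * δ) ^ r)⁻¹ ≤
      D + |K| * (8 ^ β' * ((b : ℝ) ^ (P + m)) ^ β') := by
    linarith [hlow.trans hsub, hK'.trans hup3]
  have hB1 : 1 ≤ ((b : ℝ) ^ (P + m)) ^ β' :=
    Real.one_le_rpow (one_le_pow₀ hb'.le) hβ'0
  have hmain2 : ((b : ℝ) ^ m) ^ r ≤ C * ((b : ℝ) ^ (P + m)) ^ β' := by
    have h1 : Real.exp (-a) * ((2 * C1 * δ) ^ r)⁻¹ =
        ((b : ℝ) ^ m) ^ r / ((2 * C1) ^ r * Real.exp a) := by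
      rw [hδ, Real.exp_neg, mul_one_div, div_pow]
      field_simp
    rw [h1, div_le_iff₀ (by positivity)] at hmain
    refine hmain.trans ?_
    rw [hC]
    have h2 : D + |K| * (8 ^ β' * ((b : ℝ) ^ (P + m)) ^ β') ≤
        (D + |K| * 8 ^ β') * ((b : ℝ) ^ (P + m)) ^ β' := by
      have h3 : D ≤ D * ((b : ℝ) ^ (P + m)) ^ β' := le_mul_of_one_le_right hD0.le hB1
      calc D + |K| * (8 ^ β' * ((b : ℝ) ^ (P + m)) ^ β')
          ≤ D * ((b : ℝ) ^ (P + m)) ^ β' + |K| * (8 ^ β' * ((b : ℝ) ^ (P + m)) ^ β') :=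
            add_le_add_left h3 _
        _ = (D + |K| * 8 ^ β') * ((b : ℝ) ^ (P + m)) ^ β' := by ring
    calc (D + |K| * (8 ^ β' * ((b : ℝ) ^ (P + m)) ^ β')) * ((2 * C1) ^ r * Real.exp a)
        ≤ ((D + |K| * 8 ^ β') * ((b : ℝ) ^ (P + m)) ^ β') * ((2 * C1) ^ r * Real.exp a) := by
          gcongr
      _ = (D + |K| * 8 ^ β') * (2 * C1) ^ r * Real.exp a * ((b : ℝ) ^ (P + m)) ^ β' := by ring
  have hmain3 : (b : ℝ) ^ ((m : ℝ) * (r - β') - P * β') ≤ C := by
    have h1 : ((b : ℝ) ^ m) ^ r = (b : ℝ) ^ ((m : ℝ) * r) := by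
      rw [← pow_mul, ← Real.rpow_natCast]
      push_cast
      rfl
    have h2 : ((b : ℝ) ^ (P + m)) ^ β' = (b : ℝ) ^ (((P : ℝ) + m) * β') := by
      rw [← Real.rpow_natCast, ← Real.rpow_mul hb0.le]
      push_cast
      rfl
    rw [h1, h2] at hmain2
    have h3 : (m : ℝ) * (r - β') - P * β' = (m : ℝ) * r - ((P : ℝ) + m) * β' := by ring
    rw [h3, Real.rpow_sub hb0, div_le_iff₀ (by positivity)]
    exact hmain2
  have hfin : (2 : ℝ) ^ ((m : ℝ) * (r - β') - P * β') ≤ (b : ℝ) ^ ((m : ℝ) * (r - β') - P * β') :=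
    Real.rpow_le_rpow (by norm_num) hb2 hm2
  linarith

end Pool.Agent.MP_047497_nt
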