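import Pool.Agent.Lib_MP_047497_nt.PartA4
import Pool.Agent.Lib_MP_047497_nt.PartB4
set_option autoImplicit false
open Complex MeasureTheory Set Filter Asymptotics
open scoped Topology
namespace Pool.Agent.MP_047497_nt

theorem one_sub_exp_ne_zero {c : ℝ} (hc : 0 < c) {z : ℂ} (hz : 0 < z.re) :
    1 - Complex.exp (-(c * z)) ≠ 0 := by
  intro h
  have h1 : Complex.exp (-(c * z)) = 1 := (sub_eq_zero.1 h).symm
  have h2 : ‖Complex.exp (-(c * z))‖ = 1 := by rw [h1]; simp
  rw [Complex.norm_exp] at h2
  simp only [neg_re, mul_re, ofReal_re, ofReal_im, zero_mul, sub_zero, Real.exp_eq_one_iff] at h2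
  have := mul_pos hc hz
  linarith

theorem subF_differentiableOn (r : ℕ) (a : ℝ) (w : Fin r → ℝ) (hw : ∀ i, 0 < w i) :
    DifferentiableOn ℂ (subF r a w) {z : ℂ | 0 < z.re} := by
  unfold subF genF
  refine DifferentiableOn.sub (DifferentiableOn.mul (by fun_prop) ?_) ?_
  · refine DifferentiableOn.fun_finsetProd fun i _ => ?_
    refine DifferentiableOn.inv (by fun_prop) ?_
    intro z hz
    exact one_sub_exp_ne_zero (hw i) hz
  · refine DifferentiableOn.inv (by fun_prop) ?_
    intro z hz
    have hz0 : z ≠ 0 := by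
      intro h0; rw [h0] at hz; simp at hz
    have : (∏ i, (w i : ℂ)) ≠ 0 := by
      rw [Finset.prod_ne_zero_iff]
      intro i _
      exact_mod_cast (hw i).ne'
    exact mul_ne_zero this (pow_ne_zero _ hz0)

theorem subF_ofReal_im (r : ℕ) (a : ℝ) (w : Fin r → ℝ) (x : ℝ) :
    (subF r a w (x : ℂ)).im = 0 := by
  have : subF r a w (x : ℂ) = ((Real.exp (-(a * x)) * ∏ i, (1 - Real.exp (-(w i * x)))⁻¹ -
      ((∏ i, w i) * x ^ r)⁻¹ : ℝ) : ℂ) := by
    unfold subF genF
    push_cast
    rfl
  rw [this, Complex.ofReal_im]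

theorem finrank_pow_liouville {r : ℕ} {L : ℝ} (hL : Liouville L) :
    Module.finrank ℚ (Submodule.span ℚ (Set.range fun i : Fin r => L ^ (i : ℕ))) = r := by
  have htr : Transcendental ℤ L := hL.transcendental
  have htrQ : Transcendental ℚ L := by
    intro halg
    apply htr
    exact (IsFractionRing.isAlgebraic_iff ℤ ℚ ℝ).2 halg
  have hli : LinearIndependent ℚ (fun i : Fin r => L ^ (i : ℕ)) := by
    have hinj : Function.Injective (Polynomial.aeval (R := ℚ) L) :=
      transcendental_iff_injective.1 htrQ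
    have h0 := (Polynomial.basisMonomials ℚ).linearIndependent.map'
      (Polynomial.aeval (R := ℚ) L).toLinearMap
      (LinearMap.ker_eq_bot.2 hinj)
    have h1 : LinearIndependent ℚ (fun i : ℕ => L ^ i) := by
      have e : (fun i : ℕ => L ^ i) =
          ((Polynomial.aeval (R := ℚ) L).toLinearMap ∘ (Polynomial.basisMonomials ℚ)) := by
        ext i
        simp [Polynomial.coe_basisMonomials]
      rw [e]
      exact h0
    exact h1.comp (fun i : Fin r => (i : ℕ)) Fin.val_injective
  rw [finrank_span_eq_card hli, Fintype.card_fin]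

end Pool.Agent.MP_047497_nt
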