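import Pool.Agent.Lib_MP_047497_nt.PartC1
set_option autoImplicit false
open Complex MeasureTheory Set Filter Asymptotics
open scoped Topology
namespace Pool.Agent.MP_047497_nt

theorem pow_sub_pow_le {x y M : ℝ} (hx : |x| ≤ M) (hy : |y| ≤ M) (i : ℕ) :
    |x ^ i - y ^ i| ≤ i * M ^ (i - 1) * |x - y| := by
  have hM : 0 ≤ M := (abs_nonneg x).trans hx
  have h := Commute.geom_sum₂_mul (Commute.all x y) i
  rw [← h, abs_mul]
  apply mul_le_mul_of_nonneg_right _ (abs_nonneg _)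
  refine (Finset.abs_sum_le_sum_abs _ _).trans ?_
  calc ∑ j ∈ Finset.range i, |x ^ j * y ^ (i - 1 - j)|
      ≤ ∑ j ∈ Finset.range i, M ^ (i - 1) := by
        apply Finset.sum_le_sum
        intro j hj
        rw [Finset.mem_range] at hj
        rw [abs_mul, abs_pow, abs_pow]
        calc |x| ^ j * |y| ^ (i - 1 - j) ≤ M ^ j * M ^ (i - 1 - j) := by
              apply mul_le_mul (pow_le_pow_left₀ (abs_nonneg _) hx _)
                (pow_le_pow_left₀ (abs_nonneg _) hy _) (by positivity) (by positivity)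
          _ = M ^ (i - 1) := by rw [← pow_add]; congr 1; omega
    _ = _ := by simp

/-- Simultaneous approximation of the powers of a Liouville number. -/
theorem liouville_powers {r : ℕ} (hr : 1 ≤ r) {L : ℝ} (hL : Liouville L) (hpos : 0 < L) :
    ∃ C : ℝ, 0 < C ∧ ∀ n : ℕ, r ≤ n → ∃ b : ℕ, 2 ≤ b ∧ ∀ i : Fin r, ∃ m : ℤ,
      |(b : ℝ) ^ (r - 1) * L ^ (i : ℕ) - m| ≤ C * ((b : ℝ) ^ (r - 1) / (b : ℝ) ^ n) := by
  refine ⟨r * (L + 1) ^ r, by positivity, fun n hn => ?_⟩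
  obtain ⟨p, q, hq, hne, hlt⟩ := hL n
  obtain ⟨b, rfl⟩ : ∃ b : ℕ, q = b := ⟨q.toNat, (Int.toNat_of_nonneg (by omega)).symm⟩
  have hb : 2 ≤ b := by exact_mod_cast hq
  have hb0 : (0 : ℝ) < b := by positivity
  refine ⟨b, hb, fun i => ⟨(b : ℤ) ^ (r - 1 - (i : ℕ)) * p ^ (i : ℕ), ?_⟩⟩
  have hi : (i : ℕ) ≤ r - 1 := by have := i.2; omega
  set y : ℝ := (p : ℝ) / (b : ℝ) with hy
  have hlt' : |L - y| < 1 / (b : ℝ) ^ n := by simpa using hlt
  have h1b : (1 : ℝ) ≤ (b : ℝ) := by exact_mod_cast (by omega : 1 ≤ b)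
  have hle1 : |L - y| ≤ 1 := by
    refine hlt'.le.trans ?_
    rw [div_le_one (by positivity)]
    exact one_le_pow₀ h1b
  have hLM : |L| ≤ L + 1 := by rw [abs_of_pos hpos]; linarith
  have hyM : |y| ≤ L + 1 := by
    have : |y| ≤ |L| + |L - y| := by
      have := abs_sub_abs_le_abs_sub y L
      rw [abs_sub_comm y L] at this
      linarith
    rw [abs_of_pos hpos] at this
    linarith
  have h1 := pow_sub_pow_le hLM hyM (i : ℕ)
  have e1 : (b : ℝ) ^ (r - 1) * L ^ (i : ℕ) - (((b : ℤ) ^ (r - 1 - (i : ℕ)) * p ^ (i : ℕ) : ℤ) : ℝ) =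
      (b : ℝ) ^ (r - 1) * (L ^ (i : ℕ) - y ^ (i : ℕ)) := by
    push_cast
    rw [mul_sub, hy, div_pow]
    congr 1
    have : (b : ℝ) ^ (r - 1) = (b : ℝ) ^ (r - 1 - (i : ℕ)) * (b : ℝ) ^ (i : ℕ) := by
      rw [← pow_add]; congr 1; omega
    rw [this]
    field_simp
  rw [e1, abs_mul, abs_of_pos (by positivity)]
  have h2 : (i : ℝ) * (L + 1) ^ ((i : ℕ) - 1) ≤ r * (L + 1) ^ r := by
    apply mul_le_mul
    · exact_mod_cast i.2.le
    · exact pow_le_pow_right₀ (by linarith) (by omega)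
    · positivity
    · positivity
  calc (b : ℝ) ^ (r - 1) * |L ^ (i : ℕ) - y ^ (i : ℕ)|
      ≤ (b : ℝ) ^ (r - 1) * ((r * (L + 1) ^ r) * (1 / (b : ℝ) ^ n)) := by
        apply mul_le_mul_of_nonneg_left _ (by positivity)
        refine h1.trans ?_
        apply mul_le_mul h2 hlt'.le (abs_nonneg _) (by positivity)
    _ = _ := by ring

theorem norm_one_sub_exp_le {c δ q : ℝ} {m : ℤ} {E : ℝ} (hδ : 0 ≤ δ) (hc : 0 ≤ c)
    (hm : |q * c - m| ≤ E) (hsmall : c * δ + 2 * Real.pi * E ≤ 1) :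
    ‖1 - Complex.exp (-((c : ℂ) * ((δ : ℂ) + (2 * Real.pi * q : ℝ) * I)))‖ ≤
      2 * (c * δ + 2 * Real.pi * E) := by
  have e1 : -((c : ℂ) * ((δ : ℂ) + (2 * Real.pi * q : ℝ) * I)) =
      -((c * δ : ℝ) + (2 * Real.pi * (q * c - m) : ℝ) * I : ℂ) + ((-m : ℤ) : ℂ) * (2 * Real.pi * I) := by
    push_cast
    ring
  rw [e1, Complex.exp_add, Complex.exp_int_mul_two_pi_mul_I, mul_one, norm_sub_rev]
  have h1 : ‖-((c * δ : ℝ) + (2 * Real.pi * (q * c - m) : ℝ) * I : ℂ)‖ ≤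
      c * δ + 2 * Real.pi * E := by
    rw [norm_neg]
    refine (norm_add_le _ _).trans ?_
    rw [norm_mul, Complex.norm_I, mul_one, Complex.norm_real, Complex.norm_real,
      Real.norm_eq_abs, Real.norm_eq_abs, abs_of_nonneg (mul_nonneg hc hδ), abs_mul,
      abs_of_pos (by positivity : (0:ℝ) < 2 * Real.pi)]
    gcongr
  have h2 := Complex.norm_exp_sub_one_le (h1.trans hsmall)
  exact h2.trans (mul_le_mul_of_nonneg_left h1 two_pos.le)

theorem no_bound_of_liouville {r : ℕ} (hr : 1 ≤ r) {a : ℝ} (ha : 0 < a) {L : ℝ}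
    (hL : Liouville L) (hpos : 0 < L) {σ β : ℝ} (hσ : 0 < σ) (hβ : β < r)
    (h : ∃ K : ℝ, ∀ z : ℂ, 0 < z.re → 0 < z.im →
      ‖subF r a (fun i : Fin r => L ^ (i : ℕ)) z‖ ≤ K * ‖z‖ ^ (-σ) * (‖z‖ / z.re) ^ β) :
    False := by
  obtain ⟨K, hK⟩ := h
  obtain ⟨C, hC, happ⟩ := liouville_powers hr hL hpos
  have hr' : (1 : ℝ) ≤ r := by exact_mod_cast hr
  set B := max β 0 with hB
  have hB0 : 0 ≤ B := le_max_right _ _
  have hBβ : β ≤ B := le_max_left _ _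
  have hBr : B < r := max_lt hβ (by linarith)
  set M := (L + 1) ^ r with hM
  have hM1 : 1 ≤ M := one_le_pow₀ (by linarith)
  set C2 := M + 2 * Real.pi * C with hC2
  have hC2pos : 0 < C2 := by positivity
  set w : Fin r → ℝ := fun i : Fin r => L ^ (i : ℕ) with hw
  have hwpos : ∀ i, 0 < w i := fun i => by simp only [hw]; positivity
  have hwM : ∀ i, w i ≤ M := by
    intro i
    simp only [hw, hM]
    calc L ^ (i : ℕ) ≤ (L + 1) ^ (i : ℕ) := pow_le_pow_left₀ hpos.le (by linarith) _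
      _ ≤ (L + 1) ^ r := pow_le_pow_right₀ (by linarith) i.2.le
  set P := ∏ i, w i with hP
  have hPpos : 0 < P := Finset.prod_pos fun i _ => hwpos i
  -- constant
  set C4 := (P⁻¹ + |K| * (2 + 2 * Real.pi) ^ B) * (Real.exp a * (2 * C2) ^ r) with hC4
  have hC4pos : 0 < C4 := by positivity
  -- choose n
  have hexp : ∃ n : ℕ, r ≤ n ∧ C2 * (2 : ℝ) ^ (((r : ℝ) - 1) - n) ≤ 1 ∧
      C4 < (2 : ℝ) ^ (((n : ℝ) - (r - 1)) * (r - B) - (r - 1) * B) ∧
      (0 : ℝ) ≤ (((n : ℝ) - (r - 1)) * (r - B) - (r - 1) * B) := by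
    have t1 : Tendsto (fun n : ℕ => (n : ℝ)) atTop atTop := tendsto_natCast_atTop_atTop
    have t2 : Tendsto (fun n : ℕ => (n : ℝ) - ((r : ℝ) - 1)) atTop atTop :=
      tendsto_atTop_add_const_right _ _ t1
    have t3 : Tendsto (fun n : ℕ => (((n : ℝ) - (r - 1)) * (r - B) - (r - 1) * B)) atTop atTop :=
      tendsto_atTop_add_const_right _ _ (t2.atTop_mul_const (by linarith))
    have t4 : Tendsto (fun x : ℝ => (2 : ℝ) ^ x) atTop atTop :=
      tendsto_rpow_atTop_of_base_gt_one 2 one_lt_two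
    have t5 := t4.comp t3
    have t6 := t4.comp t2
    have e1 : ∀ᶠ n : ℕ in atTop, C2 * (2 : ℝ) ^ (((r : ℝ) - 1) - n) ≤ 1 := by
      filter_upwards [t6.eventually_ge_atTop C2] with n hn
      have : ((r : ℝ) - 1) - n = -((n : ℝ) - ((r : ℝ) - 1)) := by ring
      rw [this, Real.rpow_neg two_pos.le, ← div_eq_mul_inv, div_le_one (by positivity)]
      exact hn
    obtain ⟨n, h1, h2, h3, h4⟩ := ((eventually_ge_atTop r).and (e1.and
      ((t5.eventually_gt_atTop C4).and (t3.eventually_ge_atTop 0)))).exists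
    exact ⟨n, h1, h2, h3, h4⟩
  obtain ⟨n, hrn, hn1, hn2, hn3⟩ := hexp
  obtain ⟨b, hb, hbi⟩ := happ n hrn
  have hbR : (2 : ℝ) ≤ b := by exact_mod_cast hb
  have hb0 : (0 : ℝ) < b := by linarith
  set q : ℝ := (b : ℝ) ^ (r - 1) with hq
  set δ : ℝ := (b : ℝ) ^ (r - 1) / (b : ℝ) ^ n with hδ
  have hq1 : 1 ≤ q := one_le_pow₀ (by linarith)
  have hδ0 : 0 < δ := by positivity
  have hδr : δ = (b : ℝ) ^ (((r : ℝ) - 1) - n) := by
    rw [hδ, Real.rpow_sub hb0, Real.rpow_natCast, ← Real.rpow_natCast (b : ℝ) (r - 1),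
      Nat.cast_sub hr, Nat.cast_one]
  have hqr : q = (b : ℝ) ^ ((r : ℝ) - 1) := by
    rw [hq, ← Real.rpow_natCast, Nat.cast_sub hr, Nat.cast_one]
  have hnr : (r : ℝ) ≤ n := by exact_mod_cast hrn
  have hδ2 : δ ≤ (2 : ℝ) ^ (((r : ℝ) - 1) - n) := by
    rw [hδr]
    exact Real.rpow_le_rpow_of_nonpos two_pos hbR (by linarith)
  have hCδ : C2 * δ ≤ 1 := (mul_le_mul_of_nonneg_left hδ2 hC2pos.le).trans hn1
  have hC21 : 1 ≤ C2 := by
    have : 0 ≤ 2 * Real.pi * C := by positivity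
    linarith
  have hδ1 : δ ≤ 1 := by nlinarith
  -- the point z
  set z : ℂ := (δ : ℂ) + (2 * Real.pi * q : ℝ) * I with hz
  have hzre : z.re = δ := by simp [hz]
  have hzim : z.im = 2 * Real.pi * q := by simp [hz]
  have hπ := Real.pi_gt_three
  have hzim1 : 1 ≤ z.im := by rw [hzim]; nlinarith
  have hz1 : 1 ≤ ‖z‖ := hzim1.trans ((le_abs_self _).trans (Complex.abs_im_le_norm z))
  have hz2 : ‖z‖ ≤ (2 + 2 * Real.pi) * q := by
    calc ‖z‖ ≤ ‖(δ : ℂ)‖ + ‖((2 * Real.pi * q : ℝ) : ℂ) * I‖ := norm_add_le _ _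
      _ = δ + 2 * Real.pi * q := by
        rw [norm_mul, Complex.norm_I, mul_one, Complex.norm_real, Complex.norm_real,
          Real.norm_eq_abs, Real.norm_eq_abs, abs_of_pos hδ0, abs_of_pos (by positivity)]
      _ ≤ _ := by nlinarith
  -- lower bound for genF
  have hfac : ∀ i : Fin r, ‖1 - Complex.exp (-((w i : ℂ) * z))‖ ≤ 2 * C2 * δ := by
    intro i
    obtain ⟨m, hm⟩ := hbi i
    have h1 : w i * δ + 2 * Real.pi * (C * δ) ≤ C2 * δ := by
      rw [hC2]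
      have := mul_le_mul_of_nonneg_right (hwM i) hδ0.le
      nlinarith
    have h2 := norm_one_sub_exp_le (c := w i) (δ := δ) (q := q) (m := m) (E := C * δ)
      hδ0.le (hwpos i).le hm (h1.trans hCδ)
    refine h2.trans ?_
    nlinarith
  have hgen : Real.exp (-a) * ((2 * C2 * δ) ^ r)⁻¹ ≤ ‖genF r a w z‖ := by
    unfold genF
    rw [norm_mul, norm_prod, Complex.norm_exp]
    have e1 : (-((a : ℂ) * z)).re = -(a * δ) := by
      simp [hzre]
    rw [e1]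
    apply mul_le_mul
    · apply Real.exp_le_exp.2
      nlinarith
    · have e2 : ((2 * C2 * δ) ^ r)⁻¹ = ∏ i : Fin r, (2 * C2 * δ)⁻¹ := by
        rw [Finset.prod_const, Finset.card_univ, Fintype.card_fin, inv_pow]
      rw [e2]
      apply Finset.prod_le_prod
      · intro i _; positivity
      · intro i _
        rw [norm_inv]
        apply inv_anti₀ _ (hfac i)
        rw [norm_pos_iff]
        exact one_sub_exp_ne_zero (hwpos i) (by rw [hzre]; exact hδ0)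
    · positivity
    · positivity
  have hpol : ‖((∏ i, (w i : ℂ)) * z ^ r)⁻¹‖ ≤ P⁻¹ := by
    rw [norm_inv, norm_mul, norm_pow, norm_prod]
    apply inv_anti₀ hPpos
    have : ∏ i, ‖((w i : ℝ) : ℂ)‖ = P := by
      rw [hP]
      apply Finset.prod_congr rfl
      intro i _
      rw [Complex.norm_real, Real.norm_eq_abs, abs_of_pos (hwpos i)]
    rw [this]
    exact le_mul_of_one_le_right hPpos.le (one_le_pow₀ hz1)
  have hup := hK z (by rw [hzre]; exact hδ0) (by linarith)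
  have hup2 : K * ‖z‖ ^ (-σ) * (‖z‖ / z.re) ^ β ≤
      |K| * (2 + 2 * Real.pi) ^ B * (q ^ B * δ ^ (-B)) := by
    have h1 : ‖z‖ ^ (-σ) ≤ 1 := by
      apply Real.rpow_le_one_of_one_le_of_nonpos hz1
      linarith
    have h2 : 1 ≤ ‖z‖ / z.re := by
      rw [hzre, one_le_div hδ0]; linarith
    have h3 : (‖z‖ / z.re) ^ β ≤ (‖z‖ / z.re) ^ B :=
      Real.rpow_le_rpow_of_exponent_le h2 hBβ
    have h4 : (‖z‖ / z.re) ^ B ≤ ((2 + 2 * Real.pi) * q / δ) ^ B := by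
      rw [hzre]
      apply Real.rpow_le_rpow (by positivity) _ hB0
      exact div_le_div_of_nonneg_right hz2 hδ0.le
    have h5 : ((2 + 2 * Real.pi) * q / δ) ^ B = (2 + 2 * Real.pi) ^ B * (q ^ B * δ ^ (-B)) := by
      rw [Real.div_rpow (by positivity) hδ0.le, Real.mul_rpow (by positivity) (by positivity),
        Real.rpow_neg hδ0.le]
      ring
    calc K * ‖z‖ ^ (-σ) * (‖z‖ / z.re) ^ β ≤ |K| * ‖z‖ ^ (-σ) * (‖z‖ / z.re) ^ β := by
          gcongr
          exact le_abs_self K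
      _ ≤ |K| * 1 * ((2 + 2 * Real.pi) ^ B * (q ^ B * δ ^ (-B))) := by
          rw [← h5]
          apply mul_le_mul _ (h3.trans h4) (by positivity) (by positivity)
          exact mul_le_mul_of_nonneg_left h1 (abs_nonneg K)
      _ = _ := by ring
  have hone : 1 ≤ q ^ B * δ ^ (-B) := by
    have h1 : 1 ≤ q ^ B := Real.one_le_rpow hq1 hB0
    have h2 : 1 ≤ δ ^ (-B) := Real.one_le_rpow_of_pos_of_le_one_of_nonpos hδ0 hδ1 (by linarith)
    nlinarith
  have hmain : Real.exp (-a) * ((2 * C2 * δ) ^ r)⁻¹ ≤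
      (P⁻¹ + |K| * (2 + 2 * Real.pi) ^ B) * (q ^ B * δ ^ (-B)) := by
    have h1 : ‖genF r a w z‖ ≤ ‖subF r a w z‖ + ‖((∏ i, (w i : ℂ)) * z ^ r)⁻¹‖ := by
      have : genF r a w z = subF r a w z + ((∏ i, (w i : ℂ)) * z ^ r)⁻¹ := by
        unfold subF; ring
      calc ‖genF r a w z‖ = ‖subF r a w z + ((∏ i, (w i : ℂ)) * z ^ r)⁻¹‖ := by rw [← this]
        _ ≤ _ := norm_add_le _ _
    have hPi : 0 < P⁻¹ := inv_pos.2 hPpos
    have h2 : P⁻¹ ≤ P⁻¹ * (q ^ B * δ ^ (-B)) := le_mul_of_one_le_right hPi.le hone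
    rw [add_mul]
    linarith [hgen, hpol, hup.trans hup2]
  -- final contradiction
  have hδrr : ((2 * C2 * δ) ^ r)⁻¹ = ((2 * C2) ^ r)⁻¹ * δ ^ (-(r : ℝ)) := by
    rw [mul_pow, mul_inv, Real.rpow_neg hδ0.le, Real.rpow_natCast]
  rw [hδrr] at hmain
  have h6 : δ ^ (-(r : ℝ)) ≤ C4 * (q ^ B * δ ^ (-B)) := by
    have e1 : δ ^ (-(r : ℝ)) = (Real.exp (-a) * (((2 * C2) ^ r)⁻¹ * δ ^ (-(r : ℝ)))) *
        (Real.exp a * (2 * C2) ^ r) := by
      rw [Real.exp_neg]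
      field_simp
    rw [e1]
    calc (Real.exp (-a) * (((2 * C2) ^ r)⁻¹ * δ ^ (-(r : ℝ)))) * (Real.exp a * (2 * C2) ^ r)
        ≤ ((P⁻¹ + |K| * (2 + 2 * Real.pi) ^ B) * (q ^ B * δ ^ (-B))) *
          (Real.exp a * (2 * C2) ^ r) := mul_le_mul_of_nonneg_right hmain (by positivity)
      _ = _ := by rw [hC4]; ring
  have h7 : (b : ℝ) ^ (((n : ℝ) - (r - 1)) * (r - B) - (r - 1) * B) ≤ C4 := by
    have e1 : δ ^ (-(r : ℝ)) = (b : ℝ) ^ (((n : ℝ) - (r - 1)) * (r - B) - (r - 1) * B) *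
        (q ^ B * δ ^ (-B)) := by
      rw [hδr, hqr, ← Real.rpow_mul hb0.le, ← Real.rpow_mul hb0.le, ← Real.rpow_mul hb0.le,
        ← Real.rpow_add hb0, ← Real.rpow_add hb0]
      congr 1
      ring
    rw [e1] at h6
    exact le_of_mul_le_mul_right h6 (by positivity)
  have h8 : (2 : ℝ) ^ (((n : ℝ) - (r - 1)) * (r - B) - (r - 1) * B) ≤
      (b : ℝ) ^ (((n : ℝ) - (r - 1)) * (r - B) - (r - 1) * B) :=
    Real.rpow_le_rpow two_pos.le hbR hn3
  linarith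

end Pool.Agent.MP_047497_nt
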